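import Pool.Agent.H74.ROW.Path

/-!
# Level zero and the row theorem (row 366)

`row_main`: the scheme of rows. Input: a function `Ph` of boxes with (P1), (P2); decreasing finite
sets `Q l` whose members have local prices (`Sig`) with total at most `Dt`; the pollution of a
member of level `l` at the window `n` is in `q ^ l • Q (n + mu)`. Output: the box of any
independent vectors of level zero has almost the smallest value.
-/

set_option autoImplicit false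

namespace Pool.ROW74

open Matrix
open Finset Real

variable {c : ℕ}

theorem in_scale {V : Matrix (Fin c) (Fin c) ℝ} (hV : V.det ≠ 0) {t : ℝ} (ht : 0 < t) {a : ℝ}
    {u : Fin c → ℝ} (h : In a V u) : In (t⁻¹ * a) (t • V) u := by
  intro k
  have hinv : (t • V)⁻¹ = t⁻¹ • V⁻¹ := by
    refine Matrix.inv_eq_left_inv ?_
    rw [Matrix.smul_mul, Matrix.mul_smul, smul_smul, inv_mul_cancel₀ ht.ne', one_smul,
      Matrix.nonsing_inv_mul _ (isUnit_iff_ne_zero.2 hV)]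
  rw [hinv, Matrix.smul_mulVec, Pi.smul_apply, smul_eq_mul, abs_mul, abs_of_pos (inv_pos.2 ht)]
  exact mul_le_mul_of_nonneg_left (h k) (inv_pos.2 ht).le

theorem det_scale {V : Matrix (Fin c) (Fin c) ℝ} (hV : V.det ≠ 0) {t : ℝ} (ht : 0 < t) :
    (t • V).det ≠ 0 ∧ log |(t • V).det| = c * log t + log |V.det| := by
  rw [Matrix.det_smul, Fintype.card_fin]
  refine ⟨mul_ne_zero (pow_ne_zero _ ht.ne') hV, ?_⟩
  rw [abs_mul, abs_of_pos (pow_pos ht _), Real.log_mul (pow_ne_zero _ ht.ne') (abs_ne_zero.2 hV),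
    Real.log_pow]

/-- Dilation. -/
theorem scale {Ph : Matrix (Fin c) (Fin c) ℝ → ℝ} {C : ℝ → ℝ}
    (P2 : ∀ (A V : Matrix (Fin c) (Fin c) ℝ) (a : ℝ), A.det ≠ 0 → V.det ≠ 0 → 1 ≤ a →
      (∀ b, In a V fun i => A i b) → Ph V ≤ Ph A + (log |V.det| - log |A.det|) + C a)
    {V : Matrix (Fin c) (Fin c) ℝ} (hV : V.det ≠ 0) {t : ℝ} (ht : 1 ≤ t) :
    Ph (t • V) ≤ Ph V + c * log t + C 1 := by
  have ht0 : 0 < t := by linarith
  obtain ⟨h1, h2⟩ := det_scale hV ht0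
  have h3 := P2 V (t • V) 1 hV h1 le_rfl (by
    intro b
    refine (in_scale hV ht0 (In.col hV b)).mono ?_
    rw [mul_one]
    exact inv_le_one_of_one_le₀ ht)
  rw [h2] at h3
  linarith

/-- The set of the bodies of level zero. -/
def SU (q r : ℝ) (Y : Matrix (Fin c) (Fin c) ℝ) (D0 : Fin c → Fin c → ℝ) (n : ℕ) :
    Set (Fin c → ℝ) :=
  (Set.range fun b => fun i => Y i b) ∪ ((Set.range fun j => q ^ n • D0 j) ∪ Ax r)

theorem row_zero {Ph : Matrix (Fin c) (Fin c) ℝ → ℝ} {C : ℝ → ℝ}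
    (hC0 : ∀ a, 0 ≤ C a) (hCm : Monotone C)
    (P1 : ∀ (A V : Matrix (Fin c) (Fin c) ℝ) (a : ℝ), A.det ≠ 0 → V.det ≠ 0 → 1 ≤ a →
      (∀ b, In a V fun i => A i b) → Ph A ≤ Ph V + C a)
    (P2 : ∀ (A V : Matrix (Fin c) (Fin c) ℝ) (a : ℝ), A.det ≠ 0 → V.det ≠ 0 → 1 ≤ a →
      (∀ b, In a V fun i => A i b) → Ph V ≤ Ph A + (log |V.det| - log |A.det|) + C a)
    {q : ℝ} (hq0 : 0 < q) (hq1 : q ≤ 1) {mu : ℕ}
    {Q : ℕ → Set (Fin c → ℝ)} (hdec : ∀ l, Q (l + 1) ⊆ Q l) {B : ℝ}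
    {r : ℝ} (hr : 0 < r) {i0 M M' N : ℕ} (hi0 : mu ≤ i0) (hiM : i0 ≤ M)
    (hMM : M ≤ M') (hN : M' ≤ N) (hBr : B * q ^ (M' - mu) ≤ r) {Dt : ℝ}
    {Z : Matrix (Fin c) (Fin c) ℝ} (hZ : IsF (Stg q mu Q i0 M ∪ Ax r) Z)
    {D0 : Fin c → Fin c → ℝ} (hdet : (mat D0).det ≠ 0) {cst0 : Fin c → ℕ → ℝ}
    (hc0 : ∀ j n, 0 ≤ cst0 j n) (hsum : ∀ j, ∑ n ∈ range N, cst0 j n ≤ Dt)
    (hD0 : ∀ j, (∀ i, |D0 j i| ≤ r) ∨ ((∀ i, |D0 j i| ≤ B) ∧ ∀ n, M ≤ n + mu → n < M' →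
      Sig Ph C (Q (n + mu) ∪ Ax r) q⁻¹ (q ^ n • D0 j) (cst0 j n))) :
    Ph (mat D0) ≤ Ph Z + c * (i0 + M) * log q⁻¹ + c * Dt + (N + 4) * K0 c C := by
  classical
  have hqn : q ≠ 0 := hq0.ne'
  have hcr : (0 : ℝ) ≤ c := Nat.cast_nonneg _
  have hqi : 1 ≤ q⁻¹ := (one_le_inv₀ hq0).2 hq1
  have hlq : 0 ≤ log q⁻¹ := Real.log_nonneg hqi
  -- constants
  have hA : (1 : ℝ) ≤ (2 * c + 1) * (2 ^ (2 * c) * (c + 1)) := by
    have h1 : (1 : ℝ) ≤ 2 ^ (2 * c) := one_le_pow₀ (by norm_num)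
    have h2 : (1 : ℝ) ≤ 2 ^ (2 * c) * (c + 1) := by nlinarith
    nlinarith
  have hA' : (c : ℝ) + 1 ≤ (2 * c + 1) * (2 ^ (2 * c) * (c + 1)) := by
    have h1 : (1 : ℝ) ≤ 2 ^ (2 * c) := one_le_pow₀ (by norm_num)
    have h2 : (c : ℝ) + 1 ≤ 2 ^ (2 * c) * (c + 1) := by nlinarith
    nlinarith
  have hCA := hC0 ((2 * c + 1) * (2 ^ (2 * c) * (c + 1)))
  have hK0 : C ((2 * c + 1) * (2 ^ (2 * c) * (c + 1))) ≤ K0 c C := by
    unfold K0
    nlinarith
  have hK1 : C 1 ≤ K0 c C := (hCm hA).trans hK0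
  have hK2 : C (c + 1) ≤ K0 c C := (hCm hA').trans hK0
  have hK3 : ((c : ℝ) + 1) * C ((c + 1) * (2 ^ c * (c + 1))) ≤ K0 c C := by
    have h1 : ((c : ℝ) + 1) * (2 ^ c * (c + 1)) ≤ (2 * c + 1) * (2 ^ (2 * c) * (c + 1)) := by
      have h2 : (2 : ℝ) ^ c ≤ 2 ^ (2 * c) := pow_le_pow_right₀ (by norm_num) (by omega)
      have h3 : (2 : ℝ) ^ c * (c + 1) ≤ 2 ^ (2 * c) * (c + 1) :=
        mul_le_mul_of_nonneg_right h2 (by positivity)
      refine mul_le_mul (by linarith) h3 (by positivity) (by positivity)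
    have h4 := hCm h1
    unfold K0
    refine mul_le_mul (by linarith) h4 (hC0 _) (by positivity)
  have hK00 : 0 ≤ K0 c C := hCA.trans hK0
  -- the dilated body
  set t : ℝ := (q ^ i0)⁻¹ with ht
  have ht1 : 1 ≤ t := (one_le_inv₀ (pow_pos hq0 _)).2 (pow_le_one₀ hq0.le hq1)
  have ht0 : 0 < t := by linarith
  set Y := t • Z with hY
  have hYd : Y.det ≠ 0 := (det_scale hZ.1 ht0).1
  have hYZ : Ph Y ≤ Ph Z + c * (i0 * log q⁻¹) + C 1 := by
    have := scale P2 hZ.1 ht1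
    rw [ht, ← inv_pow, Real.log_pow, inv_pow, ← ht] at this
    exact this
  have hYax : ∀ u ∈ Ax r, In 1 Y u := by
    intro u hu
    refine (in_scale hZ.1 ht0 (hZ.2.2 u (Or.inr hu))).mono ?_
    rw [mul_one]
    exact inv_le_one_of_one_le₀ ht1
  have hYQ : ∀ E ∈ Q M, In 1 Y E := by
    intro E hE
    have h1 : q ^ (i0 - mu) • E ∈ Stg q mu Q i0 M := ⟨M, i0 - mu, E, hiM, le_rfl, by omega, hE, rfl⟩
    have h2 := (hZ.2.2 _ (Or.inl h1)).smul (q ^ (i0 - mu))⁻¹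
    rw [smul_smul, inv_mul_cancel₀ (pow_ne_zero _ hqn), one_smul,
      abs_of_pos (inv_pos.2 (pow_pos hq0 _)), mul_one] at h2
    refine (in_scale hZ.1 ht0 h2).mono ?_
    rw [ht, inv_inv]
    have h3 : q ^ i0 = q ^ mu * q ^ (i0 - mu) := by
      rw [← pow_add]
      congr 1
      omega
    rw [h3, mul_assoc, mul_inv_cancel₀ (pow_ne_zero _ hqn), mul_one]
    exact pow_le_one₀ hq0.le hq1
  -- small vectors
  have hsm : ∀ j n, M' ≤ n + mu → ∀ k, |(q ^ n • D0 j) k| ≤ r := by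
    intro j n hn k
    rw [Pi.smul_apply, smul_eq_mul, abs_mul, abs_of_pos (pow_pos hq0 _)]
    rcases hD0 j with h | ⟨h, -⟩
    · calc q ^ n * |D0 j k| ≤ 1 * r :=
            mul_le_mul (pow_le_one₀ hq0.le hq1) (h k) (abs_nonneg _) zero_le_one
        _ = r := one_mul r
    · have h7 : q ^ n ≤ q ^ (M' - mu) := pow_le_pow_of_le_one hq0.le hq1 (by omega)
      calc q ^ n * |D0 j k| ≤ q ^ (M' - mu) * B :=
            mul_le_mul h7 (h k) (abs_nonneg _) (by positivity)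
        _ ≤ r := by rw [mul_comm]; exact hBr
  -- the bodies
  have hex : ∀ n, ∃ U, IsF (SU q r Y D0 n) U := fun n => by
    refine ex_isF ?_ hr.ne' fun k => Or.inr (Or.inr ⟨k, rfl⟩)
    exact (Set.finite_range _).union ((Set.finite_range _).union (ax_fin r))
  choose U hU using hex
  have hUY : ∀ n b, In 1 (U n) fun i => Y i b := fun n b => (hU n).2.2 _ (Or.inl ⟨b, rfl⟩)
  have hUD : ∀ n j, In 1 (U n) (q ^ n • D0 j) := fun n j =>
    (hU n).2.2 _ (Or.inr (Or.inl ⟨j, rfl⟩))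
  have hUax : ∀ n, ∀ u ∈ Ax r, In 1 (U n) u := fun n u hu => (hU n).2.2 _ (Or.inr (Or.inr hu))
  have hst : Ph (U M') ≤ Ph Y + C (c + 1) := by
    refine P1 _ _ _ (hU M').1 hYd (by linarith) ?_
    intro b
    rcases (hU M').2.1 b with ⟨b', h⟩ | ⟨j, h⟩ | h
    · rw [← h]
      exact (In.col hYd b').mono (by linarith)
    · rw [← h]
      refine (In.small zero_le_one hr (fun k => hYax _ ⟨k, rfl⟩)
        (hsm j M' (by omega))).mono (by linarith)
    · exact (hYax _ h).mono (by linarith)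
  have hgo : ∀ n, M - mu ≤ n → n < M - mu + (M' - (M - mu)) →
      Ph (U n) ≤ Ph (U (n + 1)) + ∑ j, cst0 j n + K0 c C := by
    intro n h1 h2
    have h := step hC0 hCm P1 (H := q⁻¹) (a := (c : ℝ) + 1) (inv_nonneg.2 hq0.le)
      (by linarith) (hU (n + 1)).1 (hU n).1 (fun j => q ^ n • D0 j) (fun j => cst0 j n)
      (fun _ => Q (n + mu) ∪ Ax r) (univ : Finset (Fin c)) ?_ ?_
    · rw [Finset.card_univ, Fintype.card_fin] at h
      linarith
    · intro j _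
      refine ⟨hc0 j n, ?_⟩
      rcases hD0 j with h3 | ⟨h3, h4⟩
      · left
        refine (In.small zero_le_one hr (fun k => hUax (n + 1) _ ⟨k, rfl⟩) (v := q ^ n • D0 j)
          ?_).mono (by linarith)
        intro k
        rw [Pi.smul_apply, smul_eq_mul, abs_mul, abs_of_pos (pow_pos hq0 _)]
        calc q ^ n * |D0 j k| ≤ 1 * r :=
              mul_le_mul (pow_le_one₀ hq0.le hq1) (h3 k) (abs_nonneg _) zero_le_one
          _ = r := one_mul r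
      · right
        refine ⟨?_, ?_, h4 n (by omega) (by omega)⟩
        · have h5 := (hUD (n + 1) j).smul q⁻¹
          rw [pow_succ', mul_smul, smul_smul, inv_mul_cancel₀ hqn, one_smul,
            abs_of_pos (inv_pos.2 hq0)] at h5
          refine h5.mono ?_
          have : 0 ≤ q⁻¹ := inv_nonneg.2 hq0.le
          nlinarith
        · rintro u (hu | hu)
          · have h5 := hYQ u (q_dec hdec (by omega : M ≤ n + mu) hu)
            refine (In.trans hYd zero_le_one h5 (hUY (n + 1))).mono ?_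
            linarith
          · exact (hUax (n + 1) u hu).mono (by linarith)
    · intro b
      rcases (hU n).2.1 b with ⟨b', h⟩ | ⟨j, h⟩ | h
      · left
        rw [← h]
        exact (hUY (n + 1) b').mono (by linarith)
      · right
        refine ⟨Pi.single j 1, ?_, ?_⟩
        · intro k _
          rw [Pi.single_apply]
          split_ifs <;> simp
        · rw [← h]
          have : ∀ k, (Pi.single j (1 : ℝ) : Fin c → ℝ) k • (q ^ n • D0 k) =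
              if k = j then q ^ n • D0 j else 0 := by
            intro k
            rw [Pi.single_apply]
            split_ifs with hk
            · rw [one_smul, hk]
            · rw [zero_smul]
          rw [Finset.sum_congr rfl fun k _ => this k, Finset.sum_ite_eq' univ j,
            if_pos (Finset.mem_univ _)]
      · left
        exact (hUax (n + 1) _ h).mono (by linarith)
  have htl := tele (fun n => Ph (U n)) (fun n => ∑ j, cst0 j n) (K0 c C) (M - mu)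
    (M' - (M - mu)) hgo
  rw [show M - mu + (M' - (M - mu)) = M' from by omega] at htl
  have hs1 : ∑ n ∈ Ico (M - mu) M', ∑ j, cst0 j n ≤ c * Dt := by
    rw [Finset.sum_comm]
    calc ∑ j, ∑ n ∈ Ico (M - mu) M', cst0 j n ≤ ∑ _j : Fin c, Dt := by
          refine Finset.sum_le_sum fun j _ => le_trans ?_ (hsum j)
          refine Finset.sum_le_sum_of_subset_of_nonneg ?_ fun n _ _ => hc0 j n
          intro n hn
          rw [Finset.mem_Ico] at hn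
          exact Finset.mem_range.2 (by omega)
      _ = c * Dt := by rw [Finset.sum_const, Finset.card_univ, Fintype.card_fin, nsmul_eq_mul]
  have hs2 : ((M' - (M - mu) : ℕ) : ℝ) * K0 c C ≤ N * K0 c C := by
    refine mul_le_mul_of_nonneg_right ?_ hK00
    exact_mod_cast (by omega : M' - (M - mu) ≤ N)
  -- the last dilation
  set t' : ℝ := (q ^ (M - mu))⁻¹ with ht'
  have ht1' : 1 ≤ t' := (one_le_inv₀ (pow_pos hq0 _)).2 (pow_le_one₀ hq0.le hq1)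
  have ht0' : 0 < t' := by linarith
  have hW : Ph (t' • U (M - mu)) ≤ Ph (U (M - mu)) + c * (M * log q⁻¹) + C 1 := by
    have h1 := scale P2 (hU (M - mu)).1 ht1'
    have h2 : log t' ≤ M * log q⁻¹ := by
      rw [ht', ← inv_pow, Real.log_pow]
      refine mul_le_mul_of_nonneg_right ?_ hlq
      exact_mod_cast Nat.sub_le M mu
    have h3 : (c : ℝ) * log t' ≤ c * (M * log q⁻¹) := mul_le_mul_of_nonneg_left h2 hcr
    linarith
  have hfin : Ph (mat D0) ≤ Ph (t' • U (M - mu)) + C 1 := by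
    refine P1 _ _ 1 hdet (det_scale (hU (M - mu)).1 ht0').1 le_rfl ?_
    intro j
    rw [mat_col]
    have h1 := (hUD (M - mu) j).smul t'
    rw [smul_smul, ht', inv_mul_cancel₀ (pow_ne_zero _ hqn), one_smul, ← ht',
      abs_of_pos ht0'] at h1
    have h2 := in_scale (hU (M - mu)).1 ht0' h1
    rw [mul_one, inv_mul_cancel₀ ht0'.ne'] at h2
    exact h2
  have e1 : (c : ℝ) * (i0 + M) * log q⁻¹ = c * (i0 * log q⁻¹) + c * (M * log q⁻¹) := by ring
  rw [e1]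
  linarith

/-- **The row theorem.** -/
theorem row_main {Ph : Matrix (Fin c) (Fin c) ℝ → ℝ} {C : ℝ → ℝ}
    (hC0 : ∀ a, 0 ≤ C a) (hCm : Monotone C)
    (P1 : ∀ (A V : Matrix (Fin c) (Fin c) ℝ) (a : ℝ), A.det ≠ 0 → V.det ≠ 0 → 1 ≤ a →
      (∀ b, In a V fun i => A i b) → Ph A ≤ Ph V + C a)
    (P2 : ∀ (A V : Matrix (Fin c) (Fin c) ℝ) (a : ℝ), A.det ≠ 0 → V.det ≠ 0 → 1 ≤ a →
      (∀ b, In a V fun i => A i b) → Ph V ≤ Ph A + (log |V.det| - log |A.det|) + C a)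
    {q : ℝ} (hq0 : 0 < q) (hq1 : q ≤ 1) {mu : ℕ} (hmu : 1 ≤ mu)
    {Q : ℕ → Set (Fin c → ℝ)} (hfin : ∀ l, (Q l).Finite) (hdec : ∀ l, Q (l + 1) ⊆ Q l)
    {B : ℝ} (hB : ∀ v ∈ Q 0, ∀ i, |v i| ≤ B)
    {r : ℝ} (hr : 0 < r) {s0 M M' N : ℕ} (hs0 : mu ≤ s0) (hM : 2 * s0 ≤ M) (hMM : M ≤ M')
    (hN : M' + s0 ≤ N) (hBr : B * q ^ (M' - mu) ≤ r) {Dt : ℝ} (hDt : 0 ≤ Dt)
    (hQ : ∀ l D, D ∈ Q l → s0 ≤ l → l < N → ∃ cs : ℕ → ℝ, (∀ n, 0 ≤ cs n) ∧
      ∑ n ∈ range N, cs n ≤ Dt ∧ ∀ n, s0 ≤ n + mu → n + mu < N →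
        Sig Ph C ({u | ∃ E ∈ Q (n + mu), u = q ^ l • E} ∪ Ax r) q⁻¹ (q ^ n • D) (cs n))
    {D0 : Fin c → Fin c → ℝ} (hdet : (mat D0).det ≠ 0)
    (hD0 : ∀ j, (∀ i, |D0 j i| ≤ r) ∨ ((∀ i, |D0 j i| ≤ B) ∧ ∃ cs : ℕ → ℝ, (∀ n, 0 ≤ cs n) ∧
      ∑ n ∈ range N, cs n ≤ Dt ∧ ∀ n, M ≤ n + mu → n < M' →
        Sig Ph C (Q (n + mu) ∪ Ax r) q⁻¹ (q ^ n • D0 j) (cs n))) :
    Ph (mat D0) ≤ Ph (r • (1 : Matrix (Fin c) (Fin c) ℝ)) + c * (2 * s0 + M) * log q⁻¹ +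
      (3 * c + 2 * c * N / s0) * Dt + (3 * N + 5) * K0 c C := by
  classical
  choose! cs h1 h2 h3 using hQ
  have hex : ∀ j, ∃ cj : ℕ → ℝ, (∀ n, 0 ≤ cj n) ∧ ∑ n ∈ range N, cj n ≤ Dt ∧
      ((∀ i, |D0 j i| ≤ r) ∨ ((∀ i, |D0 j i| ≤ B) ∧ ∀ n, M ≤ n + mu → n < M' →
        Sig Ph C (Q (n + mu) ∪ Ax r) q⁻¹ (q ^ n • D0 j) (cj n))) := by
    intro j
    rcases hD0 j with h | ⟨h, cj, e1, e2, e3⟩
    · exact ⟨fun _ => 0, fun _ => le_rfl, by simpa using hDt, Or.inl h⟩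
    · exact ⟨cj, e1, e2, Or.inr ⟨h, e3⟩⟩
  choose c0 d1 d2 d3 using hex
  set cst : ℕ → (Fin c → ℝ) → ℕ → ℝ := fun l D n =>
    if D ∈ Q l ∧ s0 ≤ l ∧ l < N then cs l D n else 0 with hcst
  obtain ⟨i0, hi1, hi2, Z, hZ, hPZ⟩ := row_path hC0 hCm P1 hq0 hq1 hmu hfin hdec hB hr hs0 hM
    hMM hN hBr (cst := cst) (by
      intro l D n
      simp only [hcst]
      split_ifs with h
      · exact h1 l D h.1 h.2.1 h.2.2 n
      · exact le_rfl) hDt (by
      intro l D hD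
      simp only [hcst]
      by_cases h : D ∈ Q l ∧ s0 ≤ l ∧ l < N
      · simp only [if_pos h]
        exact h2 l D h.1 h.2.1 h.2.2
      · simp only [if_neg h, Finset.sum_const_zero]
        exact hDt) (by
      intro l n D hD hl hlN hn hnN
      simp only [hcst]
      rw [if_pos ⟨hD, hl, hlN⟩]
      exact h3 l D hD hl hlN n hn hnN)
  have hz := row_zero hC0 hCm P1 P2 hq0 hq1 hdec (B := B) hr (i0 := i0) (M := M) (M' := M')
    (N := N) (by omega) (by omega) hMM (by omega) hBr hZ hdet d1 d2 d3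
  have hqi : 1 ≤ q⁻¹ := (one_le_inv₀ hq0).2 hq1
  have hlq : 0 ≤ log q⁻¹ := Real.log_nonneg hqi
  have e1 : (c : ℝ) * (i0 + M) * log q⁻¹ ≤ c * (2 * s0 + M) * log q⁻¹ := by
    refine mul_le_mul_of_nonneg_right ?_ hlq
    refine mul_le_mul_of_nonneg_left ?_ (Nat.cast_nonneg _)
    have : (i0 : ℝ) ≤ 2 * s0 := by exact_mod_cast hi2.le
    linarith
  have e2 : C 1 ≤ K0 c C := by
    have hA : (1 : ℝ) ≤ (2 * c + 1) * (2 ^ (2 * c) * (c + 1)) := by
      have h1 : (1 : ℝ) ≤ 2 ^ (2 * c) := one_le_pow₀ (by norm_num)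
      have h2 : (0 : ℝ) ≤ c := Nat.cast_nonneg _
      have h3 : (1 : ℝ) ≤ 2 ^ (2 * c) * (c + 1) := by nlinarith
      nlinarith
    have hCA := hC0 ((2 * c + 1) * (2 ^ (2 * c) * (c + 1)))
    have h4 := hCm hA
    have h5 : (0 : ℝ) ≤ c := Nat.cast_nonneg _
    unfold K0
    nlinarith
  have e3 : (3 * c + 2 * c * N / s0) * Dt = (2 * c + 2 * c * N / s0) * Dt + c * Dt := by ring
  have e4 : (3 * (N : ℝ) + 5) * K0 c C = 2 * N * K0 c C + K0 c C + (N + 4) * K0 c C := by ring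
  rw [e3, e4]
  linarith

end Pool.ROW74
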