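import Pool.Agent.H64.QUAD.Full
import Pool.Agent.H74.ROW.Main

/-!
# The interface of the row scheme (row 366)

`Qs l`: the real candidates of level `K l` and the exact candidates of level `K (l - mu)`.
`RowD`: every candidate has local prices with a small total; the pollution of a real candidate of
level `K l` at the window `n` is in `2 ^ (-K l) • Qs (n + mu)`.
-/

set_option autoImplicit false

namespace Pool.ROW74

open Matrix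
open Finset Real
open Pool.Agent.H49.Ent Pool.Agent.H32.Dense Pool.STK Pool.QC

variable {c k : ℕ}

/-- The candidates of the index `l`. -/
def Qs (D : QD c k) (X K mu : ℕ) (q1 : ℝ) (l : ℕ) : Set (Fin c → ℝ) :=
  {δ | D.Cand X (K * mu) q1 (K * l) false δ} ∪ {δ | D.Cand X (K * mu) q1 (K * (l - mu)) true δ}

/-- **(ROWD)** The local prices of the candidates. -/
def RowD (c k : ℕ) : Prop :=
  ∃ C2 : ℝ, 0 ≤ C2 ∧ ∃ Cf : ℝ → ℝ, (∀ a, 0 ≤ Cf a) ∧ Monotone Cf ∧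
  ∀ (K mu : ℕ) (C C1 : ℝ), 0 < K → 0 < mu → 1 ≤ C → 1 ≤ C1 → ∃ C3 : ℝ, 0 ≤ C3 ∧
  ∀ (D : QD c k) (X : ℕ) (q ε : ℝ), 0 < q → q ≤ 1 / 2 → 0 ≤ ε → D.Ok X C q →
  ∀ (Ω : Type) (_ : Fintype Ω) (p : Ω → ℝ) (R : Ω → Fin c → ℤ), IsLaw p → Absb p R D.A ε →
  ∀ (N : ℕ) (r : ℝ), K * (N + mu) + 2 ≤ X → C3 / 2 ^ X ≤ r →
  ∀ (l : ℕ) (w : Bool) (δ : Fin c → ℝ), D.Cand X (K * mu) (q ^ C1) (K * l) w δ →
  ∃ cs : ℕ → ℝ, (∀ n, 0 ≤ cs n) ∧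
    ∑ n ∈ range N, cs n ≤ C3 * (1 + ε + Real.log (1 / q)) + C2 / C1 * (K * N) ∧
    ∀ n < N, Sig (Pool.CLO.Ph p fun ω i => (R ω i : ℝ) / 2 ^ X) Cf
      ({u | w = false ∧ ∃ E ∈ Qs D X K mu (q ^ C1) (n + mu),
        u = ((2 : ℝ) ^ (K * l))⁻¹ • E} ∪ Ax r) (2 ^ K)
      (((2 : ℝ) ^ (K * n))⁻¹ • δ) (cs n)

end Pool.ROW74
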