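import Pool.Agent.H21.QW.Asm
import Pool.Agent.H89.CLO.Rec
import Pool.Agent.H74.ROW.RowD

/-!
# Fullness from the local prices (row 366)

`full_of_rowd : RowD c k → FullStmt c k`: the row theorem and the numbers.
-/

set_option autoImplicit false

namespace Pool.ROW74

open Matrix
open Finset Real
open Pool.Agent.H49.Ent Pool.Agent.H32.Dense Pool.STK

variable {c k : ℕ}

theorem Sig.mono {Ph : Matrix (Fin c) (Fin c) ℝ → ℝ} {C C' : ℝ → ℝ} {B B' : Set (Fin c → ℝ)}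
    {H : ℝ} {v : Fin c → ℝ} {pr : ℝ} (h : Sig Ph C B H v pr) (hC : ∀ a, 1 ≤ a → C a ≤ C' a)
    (hB : B ⊆ B') : Sig Ph C' B' H v pr := by
  intro V a hV ha hu k h1 h2 h3
  have h4 := h V a hV ha (fun u hu' => hu u (hB hu')) k h1 h2 h3
  have h5 := hC a ha
  linarith

/-- The constant for the row theorem. -/
noncomputable def Ctt (c : ℕ) (Cf : ℝ → ℝ) (a : ℝ) : ℝ := Cf a + Pool.CLO.Cpq c (max a 1)

theorem Ctt_nonneg {Cf : ℝ → ℝ} (h : ∀ a, 0 ≤ Cf a) (a : ℝ) : 0 ≤ Ctt c Cf a := by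
  have h1 := Pool.CLO.Cpq_nonneg c (zero_le_one.trans (le_max_right a 1))
  have h2 := h a
  unfold Ctt
  linarith

theorem Ctt_mono {Cf : ℝ → ℝ} (h : Monotone Cf) : Monotone (Ctt c Cf) := by
  intro a b hab
  have h0 : max a 1 ≤ max b 1 := max_le_max hab le_rfl
  have h2 := Pool.CLO.Cpq_mono c (zero_le_one.trans (le_max_right a 1)) h0
  have h3 := h hab
  unfold Ctt
  linarith

theorem qs_pow (K n : ℕ) : ((2 : ℝ) ^ K)⁻¹ ^ n = ((2 : ℝ) ^ (K * n))⁻¹ := by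
  rw [inv_pow, ← pow_mul]

/-- The row theorem for the candidates. -/
theorem full_core {Cf : ℝ → ℝ} (hCf0 : ∀ a, 0 ≤ Cf a) (hCfm : Monotone Cf) {K mu : ℕ}
    (hmu : 1 ≤ mu) {D : Pool.QC.QD c k} {X : ℕ} {C q q1 : ℝ} (hok : D.Ok X C q) (hC : 1 ≤ C)
    {Ω : Type} [Fintype Ω] {p : Ω → ℝ} (hp : IsLaw p) (x : Ω → Fin c → ℝ) {Dt : ℝ}
    (hDt : 0 ≤ Dt) {r : ℝ} {s0 M M' N : ℕ} (hs0 : mu ≤ s0) (hM : 2 * s0 ≤ M) (hMM : M ≤ M')
    (hN : M' + s0 ≤ N) (hrX : ((2 : ℝ) ^ X)⁻¹ ≤ r)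
    (hBr : 4 * C * 2 ^ (K * mu) * ((2 : ℝ) ^ K)⁻¹ ^ (M' - mu) ≤ r)
    (hrow : ∀ (l : ℕ) (w : Bool) (δ : Fin c → ℝ), D.Cand X (K * mu) q1 (K * l) w δ →
      ∃ cs : ℕ → ℝ, (∀ n, 0 ≤ cs n) ∧ ∑ n ∈ range N, cs n ≤ Dt ∧
        ∀ n < N, Sig (Pool.CLO.Ph p x) Cf
          ({u | w = false ∧ ∃ E ∈ Qs D X K mu q1 (n + mu),
            u = ((2 : ℝ) ^ (K * l))⁻¹ • E} ∪ Ax r) (2 ^ K)
          (((2 : ℝ) ^ (K * n))⁻¹ • δ) (cs n))
    {δ : Fin c → Fin c → ℝ}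
    (hδ : ∀ b, (∃ w, D.Cand X (K * mu) q1 0 w (δ b)) ∨
      ∃ i, δ b = Pi.single i ((2 : ℝ) ^ X)⁻¹) (hdet : (mat δ).det ≠ 0) :
    Pool.CLO.Ph p x (mat δ) ≤
      Pool.CLO.Ph p x (((2 : ℝ) ^ X)⁻¹ • (1 : Matrix (Fin c) (Fin c) ℝ)) +
      (c * Real.log (r * 2 ^ X) + Ctt c Cf 1) + c * (2 * s0 + M) * (K * Real.log 2) +
      (3 * c + 2 * c * N / s0) * Dt + (3 * N + 5) * K0 c (Ctt c Cf) := by
  have h2X : (0 : ℝ) < 2 ^ X := by positivity
  have hr : 0 < r := lt_of_lt_of_le (inv_pos.2 h2X) hrX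
  have hC0 : ∀ a, 0 ≤ Ctt c Cf a := Ctt_nonneg hCf0
  have hCm : Monotone (Ctt c Cf) := Ctt_mono hCfm
  have hCf : ∀ a, 1 ≤ a → Cf a ≤ Ctt c Cf a := by
    intro a _
    have h1 := Pool.CLO.Cpq_nonneg c (zero_le_one.trans (le_max_right a 1))
    unfold Ctt
    linarith
  have hCpq : ∀ a, 1 ≤ a → Pool.CLO.Cpq c a ≤ Ctt c Cf a := by
    intro a ha
    have h1 := hCf0 a
    unfold Ctt
    rw [max_eq_left ha]
    linarith
  have P1 : ∀ (A V : Matrix (Fin c) (Fin c) ℝ) (a : ℝ), A.det ≠ 0 → V.det ≠ 0 → 1 ≤ a →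
      (∀ b, In a V fun i => A i b) → Pool.CLO.Ph p x A ≤ Pool.CLO.Ph p x V + Ctt c Cf a := by
    intro A V a hA hV ha h
    have h1 := Pool.CLO.ph_P1 hp x A V a hA hV ha h
    have h2 := hCpq a ha
    linarith
  have P2 : ∀ (A V : Matrix (Fin c) (Fin c) ℝ) (a : ℝ), A.det ≠ 0 → V.det ≠ 0 → 1 ≤ a →
      (∀ b, In a V fun i => A i b) → Pool.CLO.Ph p x V ≤ Pool.CLO.Ph p x A +
        (log |V.det| - log |A.det|) + Ctt c Cf a := by
    intro A V a hA hV ha h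
    have h1 := Pool.CLO.ph_P2 hp x A V a hA hV ha h
    have h2 := hCpq a ha
    linarith
  have hq0 : (0 : ℝ) < ((2 : ℝ) ^ K)⁻¹ := by positivity
  have hq1 : ((2 : ℝ) ^ K)⁻¹ ≤ 1 := inv_le_one_of_one_le₀ (one_le_pow₀ (by norm_num))
  have hmain := row_main (Ph := Pool.CLO.Ph p x) (C := Ctt c Cf) hC0 hCm P1 P2
    (q := ((2 : ℝ) ^ K)⁻¹) hq0 hq1 hmu (Q := Qs D X K mu q1)
    (fun l => (Pool.QC.cand_fin D X _ q1 _ false).union (Pool.QC.cand_fin D X _ q1 _ true))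
    (by
      intro l δ' h
      rcases h with h | h
      · exact Or.inl (Pool.QC.cand_mono (Nat.mul_le_mul_left K (Nat.le_succ l)) h)
      · exact Or.inr (Pool.QC.cand_mono (Nat.mul_le_mul_left K (by omega)) h))
    (B := 4 * C * 2 ^ (K * mu)) (by
      intro v hv i
      rcases hv with h | h
      · exact Pool.QC.cand_le hok (by linarith) h i
      · exact Pool.QC.cand_le hok (by linarith) h i)
    hr hs0 hM hMM hN hBr hDt (by
      intro l δ' hδ' hl hlN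
      rcases hδ' with h | h
      · obtain ⟨cs, e1, e2, e3⟩ := hrow l false δ' h
        refine ⟨cs, e1, e2, fun n hn hnN => ?_⟩
        rw [inv_inv, qs_pow, qs_pow]
        refine (e3 n (by omega)).mono hCf ?_
        refine Set.union_subset_union_left _ ?_
        rintro u ⟨-, E, hE, rfl⟩
        exact ⟨E, hE, rfl⟩
      · obtain ⟨cs, e1, e2, e3⟩ := hrow (l - mu) true δ' h
        refine ⟨cs, e1, e2, fun n hn hnN => ?_⟩
        rw [inv_inv, qs_pow, qs_pow]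
        refine (e3 n (by omega)).mono hCf ?_
        refine Set.union_subset_union_left _ ?_
        rintro u ⟨h0, -⟩
        exact absurd h0 (by simp)) hdet (by
      intro j
      rcases hδ j with ⟨w, h⟩ | ⟨i, h⟩
      · right
        refine ⟨fun i => Pool.QC.cand_le hok (by linarith) h i, ?_⟩
        obtain ⟨cs, e1, e2, e3⟩ := hrow 0 w (δ j) (by rw [Nat.mul_zero]; exact h)
        refine ⟨cs, e1, e2, fun n hn hnN => ?_⟩
        rw [inv_inv, qs_pow]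
        refine (e3 n (by omega)).mono hCf ?_
        refine Set.union_subset_union_left _ ?_
        rintro u ⟨-, E, hE, rfl⟩
        rw [Nat.mul_zero, pow_zero, inv_one, one_smul]
        exact hE
      · left
        intro i'
        rw [h, Pi.single_apply]
        split_ifs
        · rw [abs_of_pos (inv_pos.2 h2X)]
          exact hrX
        · rw [abs_zero]
          exact hr.le)
  -- the start
  have hA : ((((2 : ℝ) ^ X)⁻¹ • (1 : Matrix (Fin c) (Fin c) ℝ))).det ≠ 0 := by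
    rw [Matrix.det_smul, Matrix.det_one, mul_one]
    positivity
  have ht : 1 ≤ r * 2 ^ X := by
    rw [← inv_le_iff_one_le_mul₀ h2X]
    exact hrX
  have hsc := scale P2 hA ht
  have e1 : (r * 2 ^ X) • (((2 : ℝ) ^ X)⁻¹ • (1 : Matrix (Fin c) (Fin c) ℝ)) = r • 1 := by
    rw [smul_smul, mul_assoc, mul_inv_cancel₀ h2X.ne', mul_one]
  rw [e1] at hsc
  have e2 : Real.log ((2 : ℝ) ^ K)⁻¹⁻¹ = K * Real.log 2 := by
    rw [inv_inv, Real.log_pow]
  rw [e2] at hmain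
  linarith

/-- The integers of the scheme. -/
theorem ex_ints {K X : ℕ} (hK : 0 < K) {x' : ℝ} (hx0 : 0 < x') (hx1 : x' ≤ 1 / 8)
    (h1 : 2 * K ≤ x' * X) (h2 : 2 * (K : ℝ) + 4 ≤ X / 2) :
    ∃ s0 N : ℕ, 1 ≤ s0 ∧ 3 * s0 + 1 ≤ N ∧ K * (N + 1) + 2 ≤ X ∧ (X : ℝ) ≤ K * N + 2 * K + 2 ∧
      (K : ℝ) * s0 ≤ x' * X ∧ x' * X / 2 ≤ K * s0 := by
  have hKr : (0 : ℝ) < K := Nat.cast_pos.2 hK
  have hX0 : (0 : ℝ) ≤ X := Nat.cast_nonneg _
  set s0 := ⌊x' * X / K⌋₊ with hs0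
  set N := (X - 2) / K - 1 with hN
  have a1 : (s0 : ℝ) ≤ x' * X / K := Nat.floor_le (by positivity)
  have a2 : x' * X / K < s0 + 1 := Nat.lt_floor_add_one _
  have a3 : (K : ℝ) * s0 ≤ x' * X := by
    rw [le_div_iff₀ hKr] at a1
    linarith
  have a4 : x' * X < K * s0 + K := by
    rw [div_lt_iff₀ hKr] at a2
    linarith
  have a5 : x' * X / 2 ≤ K * s0 := by linarith
  have a6 : 1 ≤ s0 := by
    by_contra h
    have : s0 = 0 := by omega
    rw [this] at a4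
    push_cast at a4
    linarith
  have b0 : K + 2 ≤ X := by
    have : (K : ℝ) + 2 ≤ X := by linarith
    exact_mod_cast this
  have b1 : 1 ≤ (X - 2) / K := (Nat.one_le_div_iff hK).2 (by omega)
  have b2 : N + 1 = (X - 2) / K := by omega
  have b3 : K * (N + 1) ≤ X - 2 := by
    rw [b2]
    exact Nat.mul_div_le _ _
  have b4 : X - 2 < K * ((X - 2) / K + 1) := by
    have := Nat.lt_mul_div_succ (X - 2) hK
    exact this
  have b5 : X ≤ K * N + 2 * K + 2 := by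
    rw [← b2] at b4
    have : K * (N + 1 + 1) = K * N + 2 * K := by ring
    omega
  have b6 : (X : ℝ) ≤ K * N + 2 * K + 2 := by exact_mod_cast b5
  refine ⟨s0, N, a6, ?_, by omega, b6, a3, a5⟩
  have c1 : (K : ℝ) * (3 * s0 + 1) ≤ K * N + 1 := by nlinarith
  by_contra hcon
  have c2 : N + 1 ≤ 3 * s0 + 1 := by omega
  have c3 : (N : ℝ) + 1 ≤ 3 * s0 + 1 := by exact_mod_cast c2
  have c4 : (K : ℝ) * (N + 1) ≤ K * (3 * s0 + 1) := mul_le_mul_of_nonneg_left c3 hKr.le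
  have c5 : (K : ℝ) * (3 * s0 + 1) ≤ 3 * (x' * X) + K := by linarith
  nlinarith

/-- The ball of the start. -/
theorem ball_facts {K X s0 N : ℕ} {x' B' : ℝ} (hB' : 1 ≤ B') (n1 : 1 ≤ s0)
    (n2 : 3 * s0 + 1 ≤ N) (n3 : K * (N + 1) + 2 ≤ X) (n4 : (X : ℝ) ≤ K * N + 2 * K + 2)
    (n5 : (K : ℝ) * s0 ≤ x' * X) :
    B' * ((2 : ℝ) ^ X)⁻¹ ≤ B' * ((2 : ℝ) ^ K)⁻¹ ^ (N - s0 - 1) ∧
    Real.log (B' * ((2 : ℝ) ^ K)⁻¹ ^ (N - s0 - 1) * 2 ^ X) ≤
      Real.log B' + (3 * K + 2 + x' * X) := by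
  have hM'1 : 1 ≤ N - s0 := by omega
  have hKM : K * (N - s0 - 1) ≤ X := by
    have h0 : N - s0 - 1 ≤ N + 1 := by omega
    have h1 : K * (N - s0 - 1) ≤ K * (N + 1) := Nat.mul_le_mul_left K h0
    omega
  constructor
  · refine mul_le_mul_of_nonneg_left ?_ (by linarith)
    rw [qs_pow]
    exact inv_anti₀ (by positivity) (pow_le_pow_right₀ (by norm_num) hKM)
  · have e1 : B' * ((2 : ℝ) ^ K)⁻¹ ^ (N - s0 - 1) * 2 ^ X =
        B' * 2 ^ (X - K * (N - s0 - 1)) := by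
      rw [qs_pow, mul_assoc]
      congr 1
      rw [inv_mul_eq_iff_eq_mul₀ (by positivity), ← pow_add]
      congr 1
      omega
    rw [e1, Real.log_mul (by positivity) (by positivity), Real.log_pow]
    have e2 : ((X - K * (N - s0 - 1) : ℕ) : ℝ) ≤ 3 * K + 2 + x' * X := by
      rw [Nat.cast_sub hKM]
      push_cast
      rw [Nat.cast_sub hM'1, Nat.cast_sub (by omega : s0 ≤ N)]
      push_cast
      have e3 : (K : ℝ) * (N - s0 - 1) = K * N - K * s0 - K := by ring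
      rw [e3]
      linarith
    have e3 : (0 : ℝ) ≤ ((X - K * (N - s0 - 1) : ℕ) : ℝ) := Nat.cast_nonneg _
    have h2 : Real.log 2 ≤ 1 := by
      have := Real.log_two_lt_d9
      linarith
    have h3 : ((X - K * (N - s0 - 1) : ℕ) : ℝ) * Real.log 2 ≤
        ((X - K * (N - s0 - 1) : ℕ) : ℝ) * 1 := mul_le_mul_of_nonneg_left h2 e3
    linarith

/-- The numbers. -/
theorem sum_facts {c : ℕ} {K N s0 X L1 lr Ct1 K00 Dt C3 ka C2' A1 x' η T0 Lq : ℝ}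
    (hKr : 0 < K) (hN : 0 ≤ N) (hs0 : 0 < s0) (hX : 0 ≤ X) (hx0 : 0 < x')
    (hx2 : x' * (64 * (c + 1)) ≤ η) (hη : 0 < η)
    (hA1 : A1 = 3 * c + 4 * c / x' + 1) (hC3 : 0 ≤ C3) (hC2' : 0 ≤ C2')
    (hC12 : A1 * C2' ≤ η / 8) (hka1 : A1 * C3 * (ka + ka) ≤ η / 8)
    (hK2 : 3 * K00 ≤ η / 8 * K)
    (hT0 : T0 = c * (L1 + 3 * K + 2) + Ct1 + A1 * C3 + 5 * K00) (X4 : T0 ≤ η / 2 * X)
    (hKN : K * N ≤ X) (n5 : K * s0 ≤ x' * X) (n6 : x' * X / 2 ≤ K * s0)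
    (hlogr : lr ≤ L1 + (3 * K + 2 + x' * X))
    (hlq : Lq ≤ ka * X) (hDt : Dt = C3 * (1 + ka * X + Lq) + C2' * (K * N)) (hDt0 : 0 ≤ Dt) :
    (c * lr + Ct1) + c * (2 * s0 + 2 * s0) * (K * Real.log 2) +
      (3 * c + 2 * c * N / s0) * Dt + (3 * N + 5) * K00 ≤ η * X := by
  have hcr : (0 : ℝ) ≤ c := Nat.cast_nonneg _
  have hA10 : 0 ≤ A1 := by
    rw [hA1]
    positivity
  have u1 : N / s0 ≤ 2 / x' := by
    rw [div_le_div_iff₀ hs0 hx0]
    have e1 : K * N * x' ≤ X * x' := mul_le_mul_of_nonneg_right hKN hx0.le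
    have e2 : K * (N * x') ≤ K * (2 * s0) := by linarith
    exact le_of_mul_le_mul_left e2 hKr
  have u2 : 3 * (c : ℝ) + 2 * c * N / s0 ≤ A1 := by
    have e1 : 2 * (c : ℝ) * N / s0 = 2 * c * (N / s0) := by ring
    have e2 : 2 * (c : ℝ) * (N / s0) ≤ 2 * c * (2 / x') :=
      mul_le_mul_of_nonneg_left u1 (by positivity)
    have e3 : 2 * (c : ℝ) * (2 / x') = 4 * c / x' := by ring
    rw [e1, hA1]
    linarith
  have u3 : Dt ≤ C3 + C3 * (ka + ka) * X + C2' * X := by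
    have e1 : C3 * (1 + ka * X + Lq) ≤ C3 * (1 + ka * X + ka * X) :=
      mul_le_mul_of_nonneg_left (by linarith) hC3
    have e2 : C2' * (K * N) ≤ C2' * X := mul_le_mul_of_nonneg_left hKN hC2'
    rw [hDt]
    linarith
  have u4 : (3 * (c : ℝ) + 2 * c * N / s0) * Dt ≤ A1 * C3 + η / 8 * X + η / 8 * X := by
    have e1 : (3 * (c : ℝ) + 2 * c * N / s0) * Dt ≤ A1 * Dt :=
      mul_le_mul_of_nonneg_right u2 hDt0
    have e2 : A1 * Dt ≤ A1 * (C3 + C3 * (ka + ka) * X + C2' * X) :=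
      mul_le_mul_of_nonneg_left u3 hA10
    have e3 : A1 * C3 * (ka + ka) * X ≤ η / 8 * X := mul_le_mul_of_nonneg_right hka1 hX
    have e4 : A1 * C2' * X ≤ η / 8 * X := mul_le_mul_of_nonneg_right hC12 hX
    linarith
  have hl2 : Real.log 2 ≤ 1 := by
    have := Real.log_two_lt_d9
    linarith
  have u5 : (c : ℝ) * (2 * s0 + 2 * s0) * (K * Real.log 2) ≤ 4 * c * (x' * X) := by
    have e1 : (c : ℝ) * (2 * s0 + 2 * s0) * (K * Real.log 2) =
        4 * c * (K * s0) * Real.log 2 := by ring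
    have e2 : 4 * (c : ℝ) * (K * s0) ≤ 4 * c * (x' * X) :=
      mul_le_mul_of_nonneg_left n5 (by positivity)
    have e3 : 0 ≤ 4 * (c : ℝ) * (K * s0) := by positivity
    have e4 : 4 * (c : ℝ) * (K * s0) * Real.log 2 ≤ 4 * (c : ℝ) * (K * s0) * 1 :=
      mul_le_mul_of_nonneg_left hl2 e3
    rw [e1]
    linarith
  have u6 : (3 * N + 5) * K00 ≤ η / 8 * X + 5 * K00 := by
    have e1 : N * (3 * K00) ≤ N * (η / 8 * K) := mul_le_mul_of_nonneg_left hK2 hN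
    have e2 : N * (η / 8 * K) = η / 8 * (K * N) := by ring
    have e3 : η / 8 * (K * N) ≤ η / 8 * X := mul_le_mul_of_nonneg_left hKN (by positivity)
    linarith
  have u7 : (c : ℝ) * lr ≤ c * (L1 + (3 * K + 2 + x' * X)) := mul_le_mul_of_nonneg_left hlogr hcr
  have u8 : 5 * (c : ℝ) * (x' * X) ≤ η / 8 * X := by
    have e1 : 5 * (c : ℝ) * x' ≤ η / 8 := by
      have : x' * (64 * (c + 1)) = 64 * (c * x') + 64 * x' := by ring
      rw [this] at hx2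
      have : 0 ≤ (c : ℝ) * x' := by positivity
      linarith
    calc 5 * (c : ℝ) * (x' * X) = 5 * c * x' * X := by ring
      _ ≤ η / 8 * X := mul_le_mul_of_nonneg_right e1 hX
  have u9 : (c : ℝ) * (L1 + (3 * K + 2 + x' * X)) = c * (L1 + 3 * K + 2) + c * (x' * X) := by
    ring
  linarith

/-- **Fullness from the local prices.** -/
theorem full_of_rowd (h : RowD c k) : Pool.QC.FullStmt c k := by
  obtain ⟨C2, hC2, Cf, hCf0, hCfm, h⟩ := h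
  intro C η hC hη
  obtain ⟨K00, hK00⟩ : ∃ K00, K00 = K0 c (Ctt c Cf) := ⟨_, rfl⟩
  have hK000 : 0 ≤ K00 := by
    rw [hK00, K0]
    have := Ctt_nonneg (c := c) hCf0 ((2 * c + 1) * (2 ^ (2 * c) * (c + 1)))
    positivity
  -- the constants
  obtain ⟨x', hx'⟩ : ∃ x' : ℝ, x' = min (1 / 8) (η / (64 * (c + 1))) := ⟨_, rfl⟩
  have hx0 : 0 < x' := hx' ▸ lt_min (by norm_num) (by positivity)
  have hx1 : x' ≤ 1 / 8 := hx' ▸ min_le_left _ _
  have hx2 : x' * (64 * (c + 1)) ≤ η := by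
    have h1 : x' ≤ η / (64 * (c + 1)) := hx' ▸ min_le_right _ _
    rwa [le_div_iff₀ (by positivity)] at h1
  obtain ⟨K, hKK⟩ := exists_nat_ge (24 * K00 / η + 1)
  have hK1 : (1 : ℝ) ≤ K := by
    have : 0 ≤ 24 * K00 / η := by positivity
    linarith
  have hK : 0 < K := by
    have : (0 : ℝ) < K := by linarith
    exact_mod_cast this
  have hKr : (0 : ℝ) < K := by linarith
  have hK2 : 3 * K00 ≤ η / 8 * K := by
    have h1 : 24 * K00 / η ≤ K := by linarith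
    rw [div_le_iff₀ hη] at h1
    linarith
  obtain ⟨A1, hA1⟩ : ∃ A1 : ℝ, A1 = 3 * c + 4 * c / x' + 1 := ⟨_, rfl⟩
  have hA10 : 1 ≤ A1 := by
    have : 0 ≤ 4 * (c : ℝ) / x' := by positivity
    have : (0 : ℝ) ≤ c := Nat.cast_nonneg _
    linarith
  obtain ⟨C1, hC1⟩ : ∃ C1 : ℝ, C1 = 1 + 8 * A1 * C2 / η := ⟨_, rfl⟩
  have hC11 : 1 ≤ C1 := by
    have : 0 ≤ 8 * A1 * C2 / η := by positivity
    linarith
  have hC10 : 0 < C1 := by linarith
  have hC12 : A1 * (C2 / C1) ≤ η / 8 := by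
    rw [← mul_div_assoc, div_le_iff₀ hC10]
    have h2 : η / 8 * (8 * A1 * C2 / η) = A1 * C2 := by
      field_simp
    have h1 : η / 8 * C1 = η / 8 + η / 8 * (8 * A1 * C2 / η) := by rw [hC1]; ring
    rw [h1, h2]
    linarith
  obtain ⟨C3, hC3, h⟩ := h K 1 C C1 hK one_pos hC hC11
  obtain ⟨ka, hka⟩ : ∃ ka : ℝ, ka = η / (16 * A1 * (C3 + 1)) := ⟨_, rfl⟩
  have hka0 : 0 < ka := by
    rw [hka]
    positivity
  have hka1 : A1 * C3 * (ka + ka) ≤ η / 8 := by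
    have h1 : ka * (16 * A1 * (C3 + 1)) = η := by
      rw [hka]
      field_simp
    have h2 : 0 ≤ ka * A1 := by positivity
    have h3 : ka * (16 * A1 * (C3 + 1)) = 16 * (A1 * C3 * ka) + 16 * (ka * A1) := by ring
    have h4 : A1 * C3 * (ka + ka) = 2 * (A1 * C3 * ka) := by ring
    rw [h3] at h1
    rw [h4]
    linarith
  obtain ⟨B, hB⟩ : ∃ B : ℝ, B = 4 * C * 2 ^ (K * 1) := ⟨_, rfl⟩
  have hB0 : 0 ≤ B := by
    rw [hB]
    positivity
  obtain ⟨T0, hT0⟩ : ∃ T0 : ℝ, T0 = c * (Real.log (B + C3 + 1) + 3 * K + 2) + Ctt c Cf 1 +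
    A1 * C3 + 5 * K00 := ⟨_, rfl⟩
  obtain ⟨X0, hX0⟩ := exists_nat_ge (2 * K / x' + (4 * K + 8) + 1 / ka + |T0| * 2 / η)
  refine ⟨K * 1, ka, ka, C1, X0, hka0, hka0, hC11, ?_⟩
  intro D X hX hok Ω iΩ p R hp hA δ hδ hdet _
  have hXr : (X0 : ℝ) ≤ X := by exact_mod_cast hX
  have g1 : 0 ≤ 2 * (K : ℝ) / x' := by positivity
  have g2 : 0 ≤ 1 / ka := by positivity
  have g3 : 0 ≤ |T0| * 2 / η := by positivity
  have X1 : 2 * K ≤ x' * X := by
    have h1 : 2 * (K : ℝ) / x' ≤ X := by linarith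
    rw [div_le_iff₀ hx0] at h1
    linarith
  have X2 : 2 * (K : ℝ) + 4 ≤ X / 2 := by linarith
  have X3 : 1 ≤ ka * X := by
    have h1 : 1 / ka ≤ X := by linarith
    rw [div_le_iff₀ hka0] at h1
    linarith
  have X4 : T0 ≤ η / 2 * X := by
    have h1 : |T0| * 2 / η ≤ X := by linarith
    rw [div_le_iff₀ hη] at h1
    have := le_abs_self T0
    linarith
  have hXpos : (0 : ℝ) ≤ X := Nat.cast_nonneg _
  clear hX0 hXr g1 g2 g3
  obtain ⟨s0, N, n1, n2, n3, n4, n5, n6⟩ := ex_ints hK hx0 hx1 X1 X2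
  -- the small parameter
  obtain ⟨q, hq⟩ : ∃ q : ℝ, q = (2 : ℝ) ^ (-(ka * X)) := ⟨_, rfl⟩
  rw [← hq] at hok hδ
  have hq0 : 0 < q := hq ▸ Real.rpow_pos_of_pos (by norm_num) _
  have hq1 : q ≤ 1 / 2 := by
    rw [hq]
    calc (2 : ℝ) ^ (-(ka * X)) ≤ (2 : ℝ) ^ (-1 : ℝ) :=
          Real.rpow_le_rpow_of_exponent_le (by norm_num) (by linarith)
      _ = 1 / 2 := by rw [Real.rpow_neg_one]; norm_num
  have hlogq : Real.log (1 / q) ≤ ka * X := by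
    rw [one_div, Real.log_inv, hq, Real.log_rpow (by norm_num)]
    have h2 : Real.log 2 ≤ 1 := by
      have := Real.log_two_lt_d9
      linarith
    have h3 : 0 ≤ ka * X := by linarith
    have h4 : ka * X * Real.log 2 ≤ ka * X * 1 := mul_le_mul_of_nonneg_left h2 h3
    linarith
  have hlogq0 : 0 ≤ Real.log (1 / q) := by
    refine Real.log_nonneg ?_
    rw [le_div_iff₀ hq0]
    linarith
  -- the ball
  obtain ⟨b1, b2⟩ := ball_facts (x' := x') (B' := B + C3 + 1) (by linarith) n1 n2 n3 n4 n5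
  obtain ⟨r, hr⟩ : ∃ r : ℝ, r = (B + C3 + 1) * ((2 : ℝ) ^ K)⁻¹ ^ (N - s0 - 1) := ⟨_, rfl⟩
  rw [← hr] at b1 b2
  have h2X : (0 : ℝ) < ((2 : ℝ) ^ X)⁻¹ := by positivity
  have hqM0 : 0 < ((2 : ℝ) ^ K)⁻¹ ^ (N - s0 - 1) := by positivity
  have hr1 : ((2 : ℝ) ^ X)⁻¹ ≤ r := by
    refine le_trans ?_ b1
    exact le_mul_of_one_le_left h2X.le (by linarith)
  have hr2 : C3 / 2 ^ X ≤ r := by
    refine le_trans ?_ b1
    rw [div_eq_mul_inv]
    exact mul_le_mul_of_nonneg_right (by linarith) h2X.le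
  have hr3 : 4 * C * 2 ^ (K * 1) * ((2 : ℝ) ^ K)⁻¹ ^ (N - s0 - 1) ≤ r := by
    rw [← hB, hr]
    exact mul_le_mul_of_nonneg_right (by linarith) hqM0.le
  -- the prices
  obtain ⟨Dt, hDt⟩ : ∃ Dt : ℝ, Dt = C3 * (1 + ka * X + Real.log (1 / q)) +
    C2 / C1 * (K * N) := ⟨_, rfl⟩
  have hC21 : 0 ≤ C2 / C1 := div_nonneg hC2 hC10.le
  have hDt0 : 0 ≤ Dt := by
    rw [hDt]
    have h1 : 0 ≤ 1 + ka * X + Real.log (1 / q) := by linarith
    have h2 : (0 : ℝ) ≤ K * N := by positivity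
    have h3 := mul_nonneg hC3 h1
    have h4 := mul_nonneg hC21 h2
    linarith
  have hrow := h D X q (ka * X) hq0 hq1 (by linarith) hok Ω iΩ p R hp hA N r n3 hr2
  rw [← hDt] at hrow
  have m1 : 2 * s0 ≤ N - s0 := by omega
  have m2 : N - s0 + s0 ≤ N := by omega
  have hcore := full_core (mu := 1) hCf0 hCfm le_rfl hok hC hp
    (fun ω i => (R ω i : ℝ) / 2 ^ X) hDt0 (r := r) (s0 := s0) (M := 2 * s0) (M' := N - s0)
    (N := N) n1 le_rfl m1 m2 hr1 hr3 hrow hδ hdet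
  refine hcore.trans ?_
  -- the sum
  have hs0r : (0 : ℝ) < s0 := by exact_mod_cast (lt_of_lt_of_le one_pos n1)
  have hKN : (K : ℝ) * N ≤ X := by
    have h1 : K * N ≤ K * (N + 1) := Nat.mul_le_mul_left K (Nat.le_succ N)
    have h2 : K * N ≤ X := by omega
    exact_mod_cast h2
  have hfin := sum_facts (c := c) hKr (Nat.cast_nonneg N) hs0r hXpos hx0 hx2 hη hA1 hC3 hC21
    hC12 hka1 hK2 hT0 X4 hKN n5 n6 b2 hlogq hDt hDt0
  rw [← hK00]
  push_cast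
  linarith

end Pool.ROW74
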