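import Mathlib

/-!
# Adding vectors to a box (row 366)

`In a V v`: the coordinates of `v` in the box `V` (columns) are at most `a`. `add_list`: members of
a list are added one after the other to a box, each with its price. `fek`: a spanning set of a
finite set of vectors with coefficients at most one.
-/

set_option autoImplicit false

namespace Pool.ROW74

open Matrix
open Finset Real

variable {c : ℕ}

/-- The coordinates of `v` in the box `V` are at most `a`. -/
def In (a : ℝ) (V : Matrix (Fin c) (Fin c) ℝ) (v : Fin c → ℝ) : Prop :=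
  ∀ i, |(V⁻¹ *ᵥ v) i| ≤ a

theorem In.mono {a b : ℝ} {V : Matrix (Fin c) (Fin c) ℝ} {v : Fin c → ℝ} (h : In a V v)
    (hab : a ≤ b) : In b V v := fun i => (h i).trans hab

theorem In.smul {a : ℝ} {V : Matrix (Fin c) (Fin c) ℝ} {v : Fin c → ℝ} (h : In a V v) (t : ℝ) :
    In (|t| * a) V (t • v) := by
  intro i
  rw [Matrix.mulVec_smul, Pi.smul_apply, smul_eq_mul, abs_mul]
  exact mul_le_mul_of_nonneg_left (h i) (abs_nonneg t)

theorem In.sum {ι : Type} (s : Finset ι) {a : ι → ℝ} {V : Matrix (Fin c) (Fin c) ℝ}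
    {v : ι → Fin c → ℝ} (h : ∀ j ∈ s, In (a j) V (v j)) : In (∑ j ∈ s, a j) V (∑ j ∈ s, v j) := by
  classical
  intro i
  have e1 : V⁻¹ *ᵥ (∑ j ∈ s, v j) = ∑ j ∈ s, V⁻¹ *ᵥ v j := by
    rw [← Matrix.mulVecLin_apply, map_sum]
    rfl
  rw [e1, Finset.sum_apply]
  exact (Finset.abs_sum_le_sum_abs _ _).trans (Finset.sum_le_sum fun j hj => h j hj i)

/-- Combinations with small coefficients. -/
theorem In.comb {ι : Type} (s : Finset ι) {a b : ℝ} {V : Matrix (Fin c) (Fin c) ℝ} (x : ι → ℝ)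
    {v : ι → Fin c → ℝ} (ha : 0 ≤ a) (h : ∀ j ∈ s, In a V (v j)) (hx : ∀ j ∈ s, |x j| ≤ b) :
    In (s.card * (b * a)) V (∑ j ∈ s, x j • v j) := by
  have h1 := In.sum s (a := fun j => |x j| * a) (v := fun j => x j • v j)
    (fun j hj => (h j hj).smul (x j))
  refine h1.mono ?_
  calc ∑ j ∈ s, |x j| * a ≤ ∑ _j ∈ s, b * a :=
        Finset.sum_le_sum fun j hj => mul_le_mul_of_nonneg_right (hx j hj) ha
    _ = s.card * (b * a) := by rw [Finset.sum_const, nsmul_eq_mul]

/-- Small vectors are combinations of the axes. -/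
theorem In.small {a r : ℝ} {V : Matrix (Fin c) (Fin c) ℝ} (ha : 0 ≤ a) (hr : 0 < r)
    (h : ∀ i, In a V (Pi.single i r)) {v : Fin c → ℝ} (hv : ∀ i, |v i| ≤ r) : In (c * a) V v := by
  have h1 := In.comb (univ : Finset (Fin c)) (b := 1) (fun i => v i / r) ha (fun i _ => h i)
    (fun i _ => by
      rw [abs_div, abs_of_pos hr, div_le_one hr]
      exact hv i)
  have e1 : ∑ i, (v i / r) • (Pi.single i r : Fin c → ℝ) = v := by
    funext j
    rw [Finset.sum_apply]
    simp only [Pi.smul_apply, Pi.single_apply, smul_eq_mul, mul_ite, mul_zero]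
    rw [Finset.sum_ite_eq]
    simp [hr.ne']
  rw [e1] at h1
  refine h1.mono (le_of_eq ?_)
  rw [Finset.card_univ, Fintype.card_fin, one_mul]

/-- Columns are in the box. -/
theorem In.col {V : Matrix (Fin c) (Fin c) ℝ} (hV : V.det ≠ 0) (b : Fin c) :
    In 1 V (fun i => V i b) := by
  intro i
  have e1 : V⁻¹ *ᵥ (fun i => V i b) = fun i => (V⁻¹ * V) i b := rfl
  rw [e1, Matrix.nonsing_inv_mul _ (isUnit_iff_ne_zero.2 hV)]
  simp only [Matrix.one_apply]
  split_ifs <;> simp

/-- A vector is the combination of the columns with its coordinates. -/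
theorem eq_sum {V : Matrix (Fin c) (Fin c) ℝ} (hV : V.det ≠ 0) (v : Fin c → ℝ) :
    v = ∑ j, (V⁻¹ *ᵥ v) j • (fun i => V i j) := by
  have h1 : V *ᵥ (V⁻¹ *ᵥ v) = v := by
    rw [Matrix.mulVec_mulVec, Matrix.mul_nonsing_inv _ (isUnit_iff_ne_zero.2 hV),
      Matrix.one_mulVec]
  funext i
  conv_lhs => rw [← h1]
  rw [Finset.sum_apply]
  simp only [Matrix.mulVec, dotProduct, Pi.smul_apply, smul_eq_mul]
  exact Finset.sum_congr rfl fun j _ => mul_comm _ _

/-- Transitivity. -/
theorem In.trans {a b : ℝ} {V W : Matrix (Fin c) (Fin c) ℝ} {v : Fin c → ℝ} (hW : W.det ≠ 0)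
    (hb : 0 ≤ b) (h : In a W v) (hWV : ∀ j, In b V (fun i => W i j)) :
    In (c * (a * b)) V v := by
  have h1 := In.comb (univ : Finset (Fin c)) (W⁻¹ *ᵥ v) hb (fun j _ => hWV j)
    (fun j _ => h j)
  rw [← eq_sum hW v] at h1
  refine h1.mono (le_of_eq ?_)
  rw [Finset.card_univ, Fintype.card_fin]

theorem det_upd (V : Matrix (Fin c) (Fin c) ℝ) (hV : V.det ≠ 0) (k : Fin c) (v : Fin c → ℝ) :
    (V.updateCol k v).det = V.det * (V⁻¹ *ᵥ v) k := by
  rw [← Matrix.cramer_apply, Matrix.cramer_eq_adjugate_mulVec, Matrix.inv_def,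
    Matrix.smul_mulVec, Pi.smul_apply, Ring.inverse_eq_inv', smul_eq_mul, ← mul_assoc,
    mul_inv_cancel₀ hV, one_mul]

/-- The coordinates in the new box. -/
theorem upd_in {V : Matrix (Fin c) (Fin c) ℝ} (hV : V.det ≠ 0) {k : Fin c} {v : Fin c → ℝ}
    (hk : ∀ i, |(V⁻¹ *ᵥ v) i| ≤ |(V⁻¹ *ᵥ v) k|) (h1 : 1 ≤ |(V⁻¹ *ᵥ v) k|) :
    (V.updateCol k v).det ≠ 0 ∧ In 1 (V.updateCol k v) v ∧
      ∀ b, 0 ≤ b → ∀ u, In b V u → In (2 * b) (V.updateCol k v) u := by
  set x := V⁻¹ *ᵥ v with hx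
  have hxk : x k ≠ 0 := by
    intro h
    rw [h, abs_zero] at h1
    linarith
  have hd : (V.updateCol k v).det ≠ 0 := by
    rw [det_upd V hV k v]
    exact mul_ne_zero hV hxk
  set W := V.updateCol k v with hW
  have hcolk : (fun i => W i k) = v := by
    funext i
    rw [hW, Matrix.updateCol_self]
  have hcolj : ∀ j, j ≠ k → (fun i => W i j) = fun i => V i j := by
    intro j hj
    funext i
    rw [hW, Matrix.updateCol_ne hj]
  have hv1 : In 1 W v := by
    have := In.col hd k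
    rwa [hcolk] at this
  refine ⟨hd, hv1, ?_⟩
  intro b hb u hu
  set y := V⁻¹ *ᵥ u with hy
  -- coordinates of `u` in `W`
  have e1 : u = ∑ j, (if j = k then y k / x k else y j - y k / x k * x j) •
      (fun i => W i j) := by
    have h2 := eq_sum hV v
    have h3 := eq_sum hV u
    rw [← hx] at h2
    rw [← hy] at h3
    have h4 : ∑ j, (if j = k then y k / x k else y j - y k / x k * x j) • (fun i => W i j) =
        (y k / x k) • v + ∑ j ∈ univ.erase k, (y j - y k / x k * x j) • (fun i => V i j) := by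
      rw [← Finset.add_sum_erase _ _ (Finset.mem_univ k), if_pos rfl, hcolk]
      congr 1
      refine Finset.sum_congr rfl fun j hj => ?_
      rw [if_neg (Finset.ne_of_mem_erase hj), hcolj j (Finset.ne_of_mem_erase hj)]
    rw [h4]
    have h5 : (y k / x k) • v = (y k) • (fun i => V i k) +
        ∑ j ∈ univ.erase k, (y k / x k * x j) • (fun i => V i j) := by
      conv_lhs => rw [h2]
      rw [Finset.smul_sum, ← Finset.add_sum_erase _ _ (Finset.mem_univ k), smul_smul,
        div_mul_cancel₀ _ hxk]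
      congr 1
      exact Finset.sum_congr rfl fun j _ => smul_smul _ _ _
    rw [h5, add_assoc, ← Finset.sum_add_distrib]
    conv_lhs => rw [h3, ← Finset.add_sum_erase _ _ (Finset.mem_univ k)]
    congr 1
    refine Finset.sum_congr rfl fun j _ => ?_
    rw [← add_smul]
    congr 1
    ring
  have e2 : W⁻¹ *ᵥ u = fun j => if j = k then y k / x k else y j - y k / x k * x j := by
    have h6 : u = W *ᵥ (fun j => if j = k then y k / x k else y j - y k / x k * x j) := by
      conv_lhs => rw [e1]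
      funext i
      rw [Finset.sum_apply]
      simp only [Matrix.mulVec, dotProduct, Pi.smul_apply, smul_eq_mul]
      exact Finset.sum_congr rfl fun j _ => mul_comm _ _
    rw [h6, Matrix.mulVec_mulVec, Matrix.nonsing_inv_mul _ (isUnit_iff_ne_zero.2 hd),
      Matrix.one_mulVec]
  have hyb : ∀ j, |y j| ≤ b := fun j => hu j
  have hx0 : 0 < |x k| := by linarith
  have hq : |y k / x k| ≤ b := by
    rw [abs_div, div_le_iff₀ hx0]
    exact (hyb k).trans (le_mul_of_one_le_right hb h1)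
  intro j
  rw [e2]
  simp only
  split_ifs with h
  · linarith
  · have h7 : |y k / x k * x j| ≤ b := by
      rw [div_mul_eq_mul_div, abs_div, abs_mul, div_le_iff₀ hx0]
      exact mul_le_mul (hyb k) (hk j) (abs_nonneg _) hb
    calc |y j - y k / x k * x j| ≤ |y j| + |y k / x k * x j| := abs_sub _ _
      _ ≤ b + b := add_le_add (hyb j) h7
      _ = 2 * b := by ring

/-- The local price of a vector (LOC): whenever the vectors of `B` are in `a V` and the largest
coordinate of `v` is between `1` and `a H`, it can replace a column at the price `pr + C a`. -/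
def Sig (Ph : Matrix (Fin c) (Fin c) ℝ → ℝ) (C : ℝ → ℝ) (B : Set (Fin c → ℝ)) (H : ℝ)
    (v : Fin c → ℝ) (pr : ℝ) : Prop :=
  ∀ (V : Matrix (Fin c) (Fin c) ℝ) (a : ℝ), V.det ≠ 0 → 1 ≤ a → (∀ u ∈ B, In a V u) →
    ∀ k, (∀ i, |(V⁻¹ *ᵥ v) i| ≤ |(V⁻¹ *ᵥ v) k|) → 1 ≤ |(V⁻¹ *ᵥ v) k| →
      |(V⁻¹ *ᵥ v) k| ≤ a * H → Ph (V.updateCol k v) ≤ Ph V + pr + C a

/-- One vector. -/
theorem add_one {Ph : Matrix (Fin c) (Fin c) ℝ → ℝ} {C : ℝ → ℝ} (hC0 : ∀ a, 0 ≤ C a)
    {B : Set (Fin c → ℝ)} {H : ℝ} {v : Fin c → ℝ} {pr : ℝ} (hp : 0 ≤ pr)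
    (hS : Sig Ph C B H v pr) {V : Matrix (Fin c) (Fin c) ℝ} (hV : V.det ≠ 0) {a : ℝ}
    (ha : 1 ≤ a) (hB : ∀ u ∈ B, In a V u) (hv : In (a * H) V v) :
    ∃ V' : Matrix (Fin c) (Fin c) ℝ, V'.det ≠ 0 ∧ In 1 V' v ∧
      (∀ b, 0 ≤ b → ∀ u, In b V u → In (2 * b) V' u) ∧ Ph V' ≤ Ph V + pr + C a := by
  by_cases h : ∀ i, |(V⁻¹ *ᵥ v) i| ≤ 1
  · refine ⟨V, hV, h, fun b hb u hu => hu.mono (by linarith), ?_⟩
    have := hC0 a
    linarith
  · push Not at h
    obtain ⟨i0, hi0⟩ := h
    obtain ⟨k, -, hk⟩ := Finset.exists_max_image (univ : Finset (Fin c))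
      (fun i => |(V⁻¹ *ᵥ v) i|) ⟨i0, Finset.mem_univ _⟩
    have hk' : ∀ i, |(V⁻¹ *ᵥ v) i| ≤ |(V⁻¹ *ᵥ v) k| := fun i => hk i (Finset.mem_univ i)
    have h1 : 1 ≤ |(V⁻¹ *ᵥ v) k| := hi0.le.trans (hk' i0)
    obtain ⟨e1, e2, e3⟩ := upd_in hV hk' h1
    exact ⟨V.updateCol k v, e1, e2, e3, hS V a hV ha hB k hk' h1 (hv k)⟩

/-- Finitely many vectors. -/
theorem add_fin {ι : Type} {Ph : Matrix (Fin c) (Fin c) ℝ → ℝ} {C : ℝ → ℝ}
    (hC0 : ∀ a, 0 ≤ C a) (hCm : Monotone C) {H a : ℝ} (hH : 0 ≤ H) (ha : 1 ≤ a)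
    {V : Matrix (Fin c) (Fin c) ℝ}
    (hV : V.det ≠ 0) (v : ι → Fin c → ℝ) (pr : ι → ℝ) (B : ι → Set (Fin c → ℝ))
    (s : Finset ι)
    (h : ∀ j ∈ s, 0 ≤ pr j ∧ (In a V (v j) ∨ (In (a * H) V (v j) ∧ (∀ u ∈ B j, In a V u) ∧
      Sig Ph C (B j) H (v j) (pr j)))) :
    ∃ V' : Matrix (Fin c) (Fin c) ℝ, V'.det ≠ 0 ∧ (∀ j ∈ s, In (2 ^ s.card * a) V' (v j)) ∧
      (∀ b, 0 ≤ b → ∀ u, In b V u → In (2 ^ s.card * b) V' u) ∧
      Ph V' ≤ Ph V + ∑ j ∈ s, pr j + s.card * C (2 ^ s.card * a) := by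
  classical
  induction s using Finset.induction_on with
  | empty =>
    refine ⟨V, hV, fun j hj => absurd hj (Finset.notMem_empty j), fun b _ u hu => ?_, ?_⟩
    · simpa using hu
    · simp
  | insert j s hj ih =>
    obtain ⟨V1, hV1, i1, i2, i3⟩ := ih fun k hk => h k (Finset.mem_insert_of_mem hk)
    have hcard : (insert j s).card = s.card + 1 := Finset.card_insert_of_notMem hj
    have ha' : (1 : ℝ) ≤ 2 ^ s.card * a := by
      have : (1 : ℝ) ≤ 2 ^ s.card := one_le_pow₀ (by norm_num)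
      nlinarith
    have hmul : (2 : ℝ) ^ (s.card + 1) * a = 2 * (2 ^ s.card * a) := by ring
    obtain ⟨hp, hj1⟩ := h j (Finset.mem_insert_self j s)
    rcases hj1 with hin | ⟨hin, hB, hS⟩
    · refine ⟨V1, hV1, ?_, ?_, ?_⟩
      · intro k hk
        rw [hcard, hmul]
        rcases Finset.mem_insert.1 hk with rfl | hk
        · exact (i2 a (by linarith) _ hin).mono (by linarith)
        · exact (i1 k hk).mono (by linarith)
      · intro b hb u hu
        rw [hcard]
        refine (i2 b hb u hu).mono ?_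
        rw [pow_succ]
        have : 0 ≤ 2 ^ s.card * b := by positivity
        linarith
      · rw [Finset.sum_insert hj, hcard]
        have h1 : C (2 ^ s.card * a) ≤ C (2 ^ (s.card + 1) * a) := hCm (by linarith)
        have h2 := hC0 (2 ^ (s.card + 1) * a)
        push_cast
        have h3 : (s.card : ℝ) * C (2 ^ s.card * a) ≤ s.card * C (2 ^ (s.card + 1) * a) :=
          mul_le_mul_of_nonneg_left h1 (Nat.cast_nonneg _)
        linarith
    · obtain ⟨V2, hV2, j1, j2, j3⟩ := add_one hC0 hp hS hV1 ha'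
        (fun u hu => i2 a (by linarith) u (hB u hu))
        (by
          have := i2 (a * H) (by positivity) _ hin
          rwa [← mul_assoc] at this)
      refine ⟨V2, hV2, ?_, ?_, ?_⟩
      · intro k hk
        rw [hcard, hmul]
        rcases Finset.mem_insert.1 hk with rfl | hk
        · exact j1.mono (by linarith)
        · exact j2 _ (by linarith) _ (i1 k hk)
      · intro b hb u hu
        rw [hcard]
        have := j2 _ (by positivity) u (i2 b hb u hu)
        refine this.mono (le_of_eq ?_)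
        ring
      · rw [Finset.sum_insert hj, hcard]
        have h1 : C (2 ^ s.card * a) ≤ C (2 ^ (s.card + 1) * a) := hCm (by linarith)
        push_cast
        have h3 : (s.card : ℝ) * C (2 ^ s.card * a) ≤ s.card * C (2 ^ (s.card + 1) * a) :=
          mul_le_mul_of_nonneg_left h1 (Nat.cast_nonneg _)
        linarith

/-- The matrix with given columns. -/
def mat (w : Fin c → Fin c → ℝ) : Matrix (Fin c) (Fin c) ℝ := Matrix.of fun i j => w j i

theorem mat_col (w : Fin c → Fin c → ℝ) (j : Fin c) : (fun i => mat w i j) = w j := rfl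

/-- A spanning family of a finite set, with coefficients at most one. -/
theorem fek {α : Type} (S : Set α) (hS : S.Finite) (f : α → Fin c → ℝ) {r : ℝ} (hr : r ≠ 0)
    (hax : ∀ i, ∃ x ∈ S, f x = Pi.single i r) :
    ∃ F : Fin c → α, (∀ k, F k ∈ S) ∧ (mat fun k => f (F k)).det ≠ 0 ∧
      ∀ x ∈ S, In 1 (mat fun k => f (F k)) (f x) := by
  classical
  choose e he1 he2 using hax
  have hfin : ({F : Fin c → α | ∀ k, F k ∈ S}).Finite := Set.Finite.pi' fun _ => hS
  obtain ⟨F, hF, hmax⟩ := Set.exists_max_image _ (fun F : Fin c → α =>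
    |(mat fun k => f (F k)).det|) hfin ⟨e, fun k => he1 k⟩
  have he : (mat fun k => f (e k)) = r • (1 : Matrix (Fin c) (Fin c) ℝ) := by
    ext i j
    simp only [mat, Matrix.of_apply, he2, Matrix.smul_apply, Matrix.one_apply, Pi.single_apply,
      smul_eq_mul, mul_ite, mul_one, mul_zero]
  have hpos : 0 < |(mat fun k => f (F k)).det| := by
    have h1 := hmax e fun k => he1 k
    rw [he, Matrix.det_smul, Matrix.det_one, mul_one] at h1
    refine lt_of_lt_of_le ?_ h1
    rw [abs_pos]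
    exact pow_ne_zero _ hr
  have hd : (mat fun k => f (F k)).det ≠ 0 := abs_pos.1 hpos
  refine ⟨F, hF, hd, ?_⟩
  intro x hx k
  have h1 := det_upd (mat fun k => f (F k)) hd k (f x)
  have h2 : (mat fun k => f (F k)).updateCol k (f x) =
      mat fun j => f (Function.update F k x j) := by
    ext i j
    rw [Matrix.updateCol_apply]
    simp only [mat, Matrix.of_apply]
    by_cases hjk : j = k
    · rw [if_pos hjk, hjk, Function.update_self]
    · rw [if_neg hjk, Function.update_of_ne hjk]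
  have h3 := hmax (Function.update F k x) (by
    intro j
    by_cases hjk : j = k
    · rw [hjk, Function.update_self]
      exact hx
    · rw [Function.update_of_ne hjk]
      exact hF j)
  rw [← h2, h1, abs_mul] at h3
  by_contra h4
  push Not at h4
  nlinarith

end Pool.ROW74
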