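import Pool.Agent.H74.ROW.Stg

/-!
# The path of stages (row 366)

From the stage `(M', j0)` (inside the ball) over `(i0, j0)` to `(i0, M)`. The prices of the members
which do not depend on the moving index are counted once; the other ones are averaged over the
fixed index.
-/

set_option autoImplicit false

namespace Pool.ROW74

open Matrix
open Finset Real

variable {c : ℕ}

/-- Telescoping. -/
theorem tele (f g : ℕ → ℝ) (K : ℝ) (a d : ℕ)
    (h : ∀ j, a ≤ j → j < a + d → f j ≤ f (j + 1) + g j + K) :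
    f a ≤ f (a + d) + ∑ j ∈ Ico a (a + d), g j + d * K := by
  induction d with
  | zero => simp
  | succ d ih =>
    have h1 := ih fun j hj1 hj2 => h j hj1 (by omega)
    have h2 := h (a + d) (by omega) (by omega)
    rw [← add_assoc, Finset.sum_Ico_succ_top (by omega)]
    push_cast
    linarith

/-- A member of an average. -/
theorem ex_avg (s0 : ℕ) (hs : 0 < s0) (a : ℕ) (f : ℕ → ℝ) (T : ℝ)
    (h : ∑ i ∈ Ico a (a + s0), f i ≤ T) : ∃ i, a ≤ i ∧ i < a + s0 ∧ f i ≤ T / s0 := by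
  have hs' : (0 : ℝ) < s0 := Nat.cast_pos.2 hs
  obtain ⟨i, hi, h1⟩ := Finset.exists_le_of_sum_le (s := Ico a (a + s0)) (f := f)
    (g := fun _ => T / s0) ⟨a, Finset.mem_Ico.2 ⟨le_rfl, by omega⟩⟩ (by
      rw [Finset.sum_const, Nat.card_Ico, nsmul_eq_mul, Nat.add_sub_cancel_left,
        mul_div_cancel₀ _ hs'.ne']
      exact h)
  rw [Finset.mem_Ico] at hi
  exact ⟨i, hi.1, hi.2, h1⟩

theorem pc_nonneg {Q : ℕ → Set (Fin c → ℝ)} {cst : ℕ → (Fin c → ℝ) → ℕ → ℝ}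
    (hc0 : ∀ l D n, 0 ≤ cst l D n) (s0 N : ℕ) (x : ℕ × (Fin c → ℝ)) (n : ℕ) :
    0 ≤ pc Q cst s0 N x n := by
  unfold pc
  split_ifs
  · exact hc0 _ _ _
  · exact le_rfl

/-- The prices of one member at different windows. -/
theorem win_le {Q : ℕ → Set (Fin c → ℝ)} {cst : ℕ → (Fin c → ℝ) → ℕ → ℝ}
    (hc0 : ∀ l D n, 0 ≤ cst l D n) {s0 N : ℕ} (hs0 : 0 < s0) {Dt : ℝ} (hDt : 0 ≤ Dt)
    (hsum : ∀ l, ∀ D ∈ Q l, ∑ n ∈ range N, cst l D n ≤ Dt) {r : ℝ} {a b : ℕ}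
    {x : ℕ × (Fin c → ℝ)} (hx : x ∈ SM Q r a b) (T : Finset ℕ) (g : ℕ → ℕ)
    (hg : ∀ l, l < b → Set.InjOn (fun t => g t - l) T) :
    ∑ t ∈ T, pc Q cst s0 N x (g t - x.1) ≤ Dt := by
  classical
  rcases hx with ⟨h1, h2, h3⟩ | ⟨h1, h2⟩
  · have e1 : ∑ t ∈ T, pc Q cst s0 N x (g t - x.1) =
        ∑ n ∈ T.image fun t => g t - x.1, pc Q cst s0 N x n := by
      rw [Finset.sum_image]
      exact hg x.1 h2
    rw [e1]
    calc ∑ n ∈ T.image fun t => g t - x.1, pc Q cst s0 N x n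
        ≤ ∑ n ∈ T.image fun t => g t - x.1, if n < N then cst x.1 x.2 n else 0 := by
          refine Finset.sum_le_sum fun n _ => ?_
          unfold pc
          split_ifs with h4 h5 h5
          · exact le_rfl
          · exact absurd h4.2.2 h5
          · exact hc0 _ _ _
          · exact le_rfl
      _ = ∑ n ∈ (T.image fun t => g t - x.1).filter (· < N), cst x.1 x.2 n := by
          rw [Finset.sum_filter]
      _ ≤ ∑ n ∈ range N, cst x.1 x.2 n := by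
          refine Finset.sum_le_sum_of_subset_of_nonneg ?_ fun n _ _ => hc0 _ _ _
          intro n hn
          rw [Finset.mem_filter] at hn
          exact Finset.mem_range.2 hn.2
      _ ≤ Dt := hsum x.1 x.2 h3
  · refine (Finset.sum_nonpos fun t _ => ?_).trans hDt
    unfold pc
    rw [if_neg]
    rintro ⟨h3, -⟩
    omega

/-- The family version. -/
theorem win_sum {Q : ℕ → Set (Fin c → ℝ)} {cst : ℕ → (Fin c → ℝ) → ℕ → ℝ}
    (hc0 : ∀ l D n, 0 ≤ cst l D n) {s0 N : ℕ} (hs0 : 0 < s0) {Dt : ℝ} (hDt : 0 ≤ Dt)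
    (hsum : ∀ l, ∀ D ∈ Q l, ∑ n ∈ range N, cst l D n ≤ Dt) {q r : ℝ} {a b : ℕ}
    {F : Fin c → ℕ × (Fin c → ℝ)} (hF : IsK q Q r a b F) (T : Finset ℕ) (g : ℕ → ℕ)
    (hg : ∀ l, l < b → Set.InjOn (fun t => g t - l) T) :
    ∑ t ∈ T, ∑ k, pc Q cst s0 N (F k) (g t - (F k).1) ≤ c * Dt := by
  rw [Finset.sum_comm]
  calc ∑ k, ∑ t ∈ T, pc Q cst s0 N (F k) (g t - (F k).1) ≤ ∑ _k : Fin c, Dt :=
        Finset.sum_le_sum fun k _ => win_le hc0 hs0 hDt hsum (hF.1 k) T g hg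
    _ = c * Dt := by rw [Finset.sum_const, Finset.card_univ, Fintype.card_fin, nsmul_eq_mul]

theorem q_dec {Q : ℕ → Set (Fin c → ℝ)} (hdec : ∀ l, Q (l + 1) ⊆ Q l) {a b : ℕ} (h : a ≤ b) :
    Q b ⊆ Q a := antitone_nat_of_succ_le (f := Q) hdec h

/-- The step with `i` fixed. -/
theorem in1 {q : ℝ} {mu : ℕ} {Q : ℕ → Set (Fin c → ℝ)} {r : ℝ} {i j : ℕ}
    {V : Matrix (Fin c) (Fin c) ℝ} (hV : IsF (Stg q mu Q i (j + 1) ∪ Ax r) V) :
    (∀ u ∈ Stg q mu Q i j, In (c + 1) V (q • u)) ∧ ∀ u ∈ Ax r, In (c + 1) V u := by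
  have hc : (1 : ℝ) ≤ c + 1 := by
    have := Nat.cast_nonneg (α := ℝ) c
    linarith
  constructor
  · rintro u ⟨l, n, D, h1, h2, h3, h4, rfl⟩
    refine (hV.2.2 _ (Or.inl ⟨l, n + 1, D, h1, by omega, by omega, h4, ?_⟩)).mono hc
    rw [smul_smul, pow_succ']
  · intro u hu
    exact (hV.2.2 _ (Or.inr hu)).mono hc

/-- The step with `j` fixed. -/
theorem in2 {q : ℝ} (hq0 : 0 < q) (hq1 : q ≤ 1) {mu : ℕ} {Q : ℕ → Set (Fin c → ℝ)}
    (hdec : ∀ l, Q (l + 1) ⊆ Q l) {B : ℝ} (hB : ∀ v ∈ Q 0, ∀ i, |v i| ≤ B)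
    {r : ℝ} (hr : 0 < r) {M' : ℕ} (hBr : B * q ^ (M' - mu) ≤ r) {i j : ℕ} (hj : M' ≤ j)
    {V : Matrix (Fin c) (Fin c) ℝ} (hV : IsF (Stg q mu Q (i + 1) j ∪ Ax r) V) :
    (∀ u ∈ Stg q mu Q i j, In (c + 1) V (q • u)) ∧ ∀ u ∈ Ax r, In (c + 1) V u := by
  have hc : (1 : ℝ) ≤ c + 1 := by
    have := Nat.cast_nonneg (α := ℝ) c
    linarith
  have hax : ∀ u ∈ Ax r, In 1 V u := fun u hu => hV.2.2 _ (Or.inr hu)
  constructor
  · rintro u ⟨l, n, D, h1, h2, h3, h4, rfl⟩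
    by_cases hl : i + 1 ≤ l
    · refine (hV.2.2 _ (Or.inl ⟨l, n + 1, D, hl, h2, by omega, h4, ?_⟩)).mono hc
      rw [smul_smul, pow_succ']
    · have h5 : In (c * 1) V (q • q ^ n • D) := by
        refine In.small zero_le_one hr (fun k => hax _ ⟨k, rfl⟩) ?_
        intro k
        rw [smul_smul, Pi.smul_apply, smul_eq_mul, abs_mul, abs_of_pos (by positivity)]
        have h6 : |D k| ≤ B := hB D (q_dec hdec (Nat.zero_le l) h4) k
        have h7 : q * q ^ n ≤ q ^ (M' - mu) := by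
          rw [← pow_succ']
          exact pow_le_pow_of_le_one hq0.le hq1 (by omega)
        calc q * q ^ n * |D k| ≤ q ^ (M' - mu) * B :=
              mul_le_mul h7 h6 (abs_nonneg _) (by positivity)
          _ ≤ r := by rw [mul_comm]; exact hBr
      refine h5.mono ?_
      linarith
  · intro u hu
    exact (hax u hu).mono hc

/-- The path. -/
theorem row_path {Ph : Matrix (Fin c) (Fin c) ℝ → ℝ} {C : ℝ → ℝ}
    (hC0 : ∀ a, 0 ≤ C a) (hCm : Monotone C)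
    (P1 : ∀ (A V : Matrix (Fin c) (Fin c) ℝ) (a : ℝ), A.det ≠ 0 → V.det ≠ 0 → 1 ≤ a →
      (∀ b, In a V fun i => A i b) → Ph A ≤ Ph V + C a)
    {q : ℝ} (hq0 : 0 < q) (hq1 : q ≤ 1) {mu : ℕ} (hmu : 1 ≤ mu)
    {Q : ℕ → Set (Fin c → ℝ)} (hfin : ∀ l, (Q l).Finite) (hdec : ∀ l, Q (l + 1) ⊆ Q l)
    {B : ℝ} (hB : ∀ v ∈ Q 0, ∀ i, |v i| ≤ B)
    {r : ℝ} (hr : 0 < r) {s0 M M' N : ℕ} (hs0 : mu ≤ s0) (hM : 2 * s0 ≤ M) (hMM : M ≤ M')
    (hN : M' + s0 ≤ N) (hBr : B * q ^ (M' - mu) ≤ r)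
    {cst : ℕ → (Fin c → ℝ) → ℕ → ℝ} (hc0 : ∀ l D n, 0 ≤ cst l D n) {Dt : ℝ} (hDt : 0 ≤ Dt)
    (hsum : ∀ l, ∀ D ∈ Q l, ∑ n ∈ range N, cst l D n ≤ Dt)
    (hloc : ∀ l n D, D ∈ Q l → s0 ≤ l → l < N → s0 ≤ n + mu → n + mu < N →
      Sig Ph C ({u | ∃ E ∈ Q (n + mu), u = q ^ l • E} ∪ Ax r) q⁻¹ (q ^ n • D) (cst l D n)) :
    ∃ i0, s0 ≤ i0 ∧ i0 < 2 * s0 ∧ ∃ Z, IsF (Stg q mu Q i0 M ∪ Ax r) Z ∧
      Ph Z ≤ Ph (r • (1 : Matrix (Fin c) (Fin c) ℝ)) + (2 * c + 2 * c * N / s0) * Dt +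
        2 * N * K0 c C + C 1 := by
  classical
  have hs0' : 0 < s0 := by omega
  have hs0r : (0 : ℝ) < s0 := Nat.cast_pos.2 hs0'
  have hK0 : 0 ≤ K0 c C := by
    unfold K0
    have := hC0 ((2 * c + 1) * (2 ^ (2 * c) * (c + 1)))
    positivity
  have hexF : ∀ i j, ∃ Z, IsF (Stg q mu Q i j ∪ Ax r) Z := fun i j =>
    ex_isF ((stg_fin q mu hfin i j).union (ax_fin r)) hr.ne' fun k => Or.inr ⟨k, rfl⟩
  choose Z hZ using hexF
  have hexK : ∀ a b, ∃ F, IsK q Q r a b F := fun a b => ex_isK hfin hr.ne' a b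
  choose F hF using hexK
  set w : ℕ → ℕ → ℕ → ℕ → ℝ := fun a b i j =>
    ∑ k, pc Q cst s0 N (F a b k) (i + j - mu - (F a b k).1) with hw
  have hw0 : ∀ a b i j, 0 ≤ w a b i j := fun a b i j =>
    Finset.sum_nonneg fun k _ => pc_nonneg hc0 s0 N _ _
  -- the choice of `i0`
  obtain ⟨i0, hi1, hi2, hi3⟩ := ex_avg s0 hs0' s0
    (fun i => ∑ j ∈ Ico M (M' + s0), w M (j + 1) i j) (N * (c * Dt)) (by
      rw [Finset.sum_comm]
      calc ∑ j ∈ Ico M (M' + s0), ∑ i ∈ Ico s0 (s0 + s0), w M (j + 1) i j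
          ≤ ∑ _j ∈ Ico M (M' + s0), (c * Dt) := by
            refine Finset.sum_le_sum fun j hj => ?_
            rw [Finset.mem_Ico] at hj
            refine win_sum hc0 hs0' hDt hsum (hF M (j + 1)) _ (fun i => i + j - mu) ?_
            intro l hl i1 h1 i2 h2 h3
            simp only [Finset.coe_Ico, Set.mem_Ico] at h1 h2 h3
            omega
        _ ≤ N * (c * Dt) := by
            rw [Finset.sum_const, Nat.card_Ico, nsmul_eq_mul]
            refine mul_le_mul_of_nonneg_right ?_ (by positivity)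
            exact_mod_cast (by omega : M' + s0 - M ≤ N))
  -- the choice of `j0`
  obtain ⟨j0, hj1, hj2, hj3⟩ := ex_avg s0 hs0' M'
    (fun j => ∑ i ∈ Ico s0 M', w i M' i j) (N * (c * Dt)) (by
      rw [Finset.sum_comm]
      calc ∑ i ∈ Ico s0 M', ∑ j ∈ Ico M' (M' + s0), w i M' i j
          ≤ ∑ _i ∈ Ico s0 M', (c * Dt) := by
            refine Finset.sum_le_sum fun i hi => ?_
            rw [Finset.mem_Ico] at hi
            refine win_sum hc0 hs0' hDt hsum (hF i M') _ (fun j => i + j - mu) ?_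
            intro l hl i1 h1 i2 h2 h3
            simp only [Finset.coe_Ico, Set.mem_Ico] at h1 h2 h3
            omega
        _ ≤ N * (c * Dt) := by
            rw [Finset.sum_const, Nat.card_Ico, nsmul_eq_mul]
            refine mul_le_mul_of_nonneg_right ?_ (by positivity)
            exact_mod_cast (by omega : M' - s0 ≤ N))
  refine ⟨i0, hi1, by omega, Z i0 M, hZ i0 M, ?_⟩
  -- the start
  have hst : Ph (Z M' j0) ≤ Ph (r • (1 : Matrix (Fin c) (Fin c) ℝ)) + C 1 := by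
    have hd : (r • (1 : Matrix (Fin c) (Fin c) ℝ)).det ≠ 0 := by
      rw [Matrix.det_smul, Matrix.det_one, mul_one]
      exact pow_ne_zero _ hr.ne'
    refine P1 _ _ 1 (hZ M' j0).1 hd le_rfl ?_
    have hent : ∀ u ∈ Stg q mu Q M' j0 ∪ Ax r, ∀ k, |u k| ≤ r := by
      rintro u (⟨l, n, D, h1, h2, h3, h4, rfl⟩ | ⟨k', rfl⟩) k
      · rw [Pi.smul_apply, smul_eq_mul, abs_mul, abs_of_pos (pow_pos hq0 _)]
        have h6 : |D k| ≤ B := hB D (q_dec hdec (Nat.zero_le l) h4) k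
        have h7 : q ^ n ≤ q ^ (M' - mu) := pow_le_pow_of_le_one hq0.le hq1 (by omega)
        calc q ^ n * |D k| ≤ q ^ (M' - mu) * B :=
              mul_le_mul h7 h6 (abs_nonneg _) (by positivity)
          _ ≤ r := by rw [mul_comm]; exact hBr
      · rw [Pi.single_apply]
        split_ifs
        · rw [abs_of_pos hr]
        · rw [abs_zero]
          exact hr.le
    intro b k
    have hinv : (r • (1 : Matrix (Fin c) (Fin c) ℝ))⁻¹ = r⁻¹ • 1 := by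
      refine Matrix.inv_eq_left_inv ?_
      rw [Matrix.smul_mul, Matrix.one_mul, smul_smul, inv_mul_cancel₀ hr.ne', one_smul]
    rw [hinv, Matrix.smul_mulVec, Matrix.one_mulVec, Pi.smul_apply, smul_eq_mul, abs_mul,
      abs_of_pos (inv_pos.2 hr), inv_mul_le_iff₀ hr, mul_one]
    exact hent _ ((hZ M' j0).2.1 b) k
  -- steps with `j0` fixed
  have hB2 : Ph (Z i0 j0) ≤ Ph (Z M' j0) +
      ∑ i ∈ Ico i0 (i0 + (M' - i0)), (w i M' i j0 + w M' (j0 + 1) i j0) +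
        ((M' - i0 : ℕ) : ℝ) * K0 c C := by
    have h := tele (fun i => Ph (Z i j0)) (fun i => w i M' i j0 + w M' (j0 + 1) i j0)
      (K0 c C) i0 (M' - i0) (by
        intro i h1 h2
        obtain ⟨e1, e2⟩ := in2 hq0 hq1 hdec hB hr hBr hj1 (hZ (i + 1) j0)
        exact row_step hC0 hCm P1 hq0 hq1 hmu hs0 hc0 hloc (by omega) (by omega) (by omega)
          (hZ (i + 1) j0).1 e1 e2 (hZ i j0) (hF i M') (hF M' (j0 + 1)) (by omega))
    have h9 : i0 + (M' - i0) = M' := by omega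
    have h8 : Ph (Z (i0 + (M' - i0)) j0) = Ph (Z M' j0) := by rw [h9]
    rw [h8] at h
    exact h
  have hB1 : Ph (Z i0 M) ≤ Ph (Z i0 j0) +
      ∑ j ∈ Ico M (M + (j0 - M)), (w i0 M i0 j + w M (j + 1) i0 j) +
        ((j0 - M : ℕ) : ℝ) * K0 c C := by
    have h := tele (fun j => Ph (Z i0 j)) (fun j => w i0 M i0 j + w M (j + 1) i0 j)
      (K0 c C) M (j0 - M) (by
        intro j h1 h2
        obtain ⟨e1, e2⟩ := in1 (hZ i0 (j + 1))
        exact row_step hC0 hCm P1 hq0 hq1 hmu hs0 hc0 hloc (by omega) (by omega) (by omega)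
          (hZ i0 (j + 1)).1 e1 e2 (hZ i0 j) (hF i0 M) (hF M (j + 1)) (by omega))
    have h9 : M + (j0 - M) = j0 := by omega
    have h8 : Ph (Z i0 (M + (j0 - M))) = Ph (Z i0 j0) := by rw [h9]
    rw [h8] at h
    exact h
  rw [show i0 + (M' - i0) = M' from by omega, Finset.sum_add_distrib] at hB2
  rw [show M + (j0 - M) = j0 from by omega, Finset.sum_add_distrib] at hB1
  have c1 : ∑ i ∈ Ico i0 M', w i M' i j0 ≤ N * (c * Dt) / s0 := by
    refine le_trans ?_ hj3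
    refine Finset.sum_le_sum_of_subset_of_nonneg ?_ fun i _ _ => hw0 _ _ _ _
    exact Finset.Ico_subset_Ico hi1 le_rfl
  have c2 : ∑ i ∈ Ico i0 M', w M' (j0 + 1) i j0 ≤ c * Dt := by
    refine win_sum hc0 hs0' hDt hsum (hF M' (j0 + 1)) _ (fun i => i + j0 - mu) ?_
    intro l hl i1 h1 i2 h2 h3
    simp only [Finset.coe_Ico, Set.mem_Ico] at h1 h2 h3
    omega
  have c3 : ∑ j ∈ Ico M j0, w i0 M i0 j ≤ c * Dt := by
    refine win_sum hc0 hs0' hDt hsum (hF i0 M) _ (fun j => i0 + j - mu) ?_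
    intro l hl i1 h1 i2 h2 h3
    simp only [Finset.coe_Ico, Set.mem_Ico] at h1 h2 h3
    omega
  have c4 : ∑ j ∈ Ico M j0, w M (j + 1) i0 j ≤ N * (c * Dt) / s0 := by
    refine le_trans ?_ hi3
    refine Finset.sum_le_sum_of_subset_of_nonneg ?_ fun i _ _ => hw0 _ _ _ _
    exact Finset.Ico_subset_Ico le_rfl (by omega)
  have c5 : ((M' - i0 : ℕ) : ℝ) * K0 c C + ((j0 - M : ℕ) : ℝ) * K0 c C ≤ 2 * N * K0 c C := by
    rw [← add_mul]
    refine mul_le_mul_of_nonneg_right ?_ hK0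
    exact_mod_cast (by omega : M' - i0 + (j0 - M) ≤ 2 * N)
  have c6 : (2 * c + 2 * c * N / s0) * Dt = 2 * (c * Dt) + 2 * (N * (c * Dt) / s0) := by
    field_simp
  rw [c6]
  linarith

end Pool.ROW74
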