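import Pool.Agent.H74.ROW.Add

/-!
# Stages and steps (row 366)

The stage `(i, j)` consists of the members of the levels `l` of `[i, j]`, read at the window
`i + j - mu - l`. The pollution of a member of the stage is in the stage, shrunk by `q ^ mu`.
`row_step`: the passage from a larger to the next smaller sum `i + j`.
-/

set_option autoImplicit false

namespace Pool.ROW74

open Matrix
open Finset Real

variable {c : ℕ}

/-- The axes of length `r`. -/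
def Ax (r : ℝ) : Set (Fin c → ℝ) := {u | ∃ i, u = Pi.single i r}

/-- The stage `(i, j)`. -/
def Stg (q : ℝ) (mu : ℕ) (Q : ℕ → Set (Fin c → ℝ)) (i j : ℕ) : Set (Fin c → ℝ) :=
  {v | ∃ l n D, i ≤ l ∧ l ≤ j ∧ n + l + mu = i + j ∧ D ∈ Q l ∧ v = q ^ n • D}

/-- The members of the levels `[a, b)` and the axes (at level `0`). -/
def SM (Q : ℕ → Set (Fin c → ℝ)) (r : ℝ) (a b : ℕ) : Set (ℕ × (Fin c → ℝ)) :=
  {x | a ≤ x.1 ∧ x.1 < b ∧ x.2 ∈ Q x.1} ∪ {x | x.1 = 0 ∧ x.2 ∈ Ax r}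

/-- The normalised vector of a member. -/
noncomputable def fv (q : ℝ) (x : ℕ × (Fin c → ℝ)) : Fin c → ℝ := (q ^ x.1)⁻¹ • x.2

/-- A spanning box of a set with members of the set as columns. -/
def IsF (S : Set (Fin c → ℝ)) (Z : Matrix (Fin c) (Fin c) ℝ) : Prop :=
  Z.det ≠ 0 ∧ (∀ b, (fun i => Z i b) ∈ S) ∧ ∀ x ∈ S, In 1 Z x

/-- Spanning members of the levels `[a, b)`. -/
def IsK (q : ℝ) (Q : ℕ → Set (Fin c → ℝ)) (r : ℝ) (a b : ℕ) (F : Fin c → ℕ × (Fin c → ℝ)) :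
    Prop :=
  (∀ k, F k ∈ SM Q r a b) ∧ (mat fun k => fv q (F k)).det ≠ 0 ∧
    ∀ x ∈ SM Q r a b, In 1 (mat fun k => fv q (F k)) (fv q x)

/-- The price of a member at a window. -/
noncomputable def pc (Q : ℕ → Set (Fin c → ℝ)) (cst : ℕ → (Fin c → ℝ) → ℕ → ℝ) (s0 N : ℕ)
    (x : ℕ × (Fin c → ℝ)) (n : ℕ) : ℝ :=
  open Classical in if s0 ≤ x.1 ∧ x.2 ∈ Q x.1 ∧ n < N then cst x.1 x.2 n else 0

theorem ax_fin (r : ℝ) : (Ax r : Set (Fin c → ℝ)).Finite := by
  have : (Ax r : Set (Fin c → ℝ)) = Set.range fun i => (Pi.single i r : Fin c → ℝ) := by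
    ext u
    constructor
    · rintro ⟨i, rfl⟩
      exact ⟨i, rfl⟩
    · rintro ⟨i, rfl⟩
      exact ⟨i, rfl⟩
  rw [this]
  exact Set.finite_range _

theorem stg_fin (q : ℝ) (mu : ℕ) {Q : ℕ → Set (Fin c → ℝ)} (hfin : ∀ l, (Q l).Finite)
    (i j : ℕ) : (Stg q mu Q i j).Finite := by
  have h1 : (⋃ l ∈ Finset.range (j + 1), ⋃ n ∈ Finset.range (i + j + 1),
      (fun D => q ^ n • D) '' Q l).Finite := by
    refine Set.Finite.biUnion (Finset.finite_toSet _) fun l _ => ?_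
    exact Set.Finite.biUnion (Finset.finite_toSet _) fun n _ => (hfin l).image _
  refine h1.subset ?_
  rintro v ⟨l, n, D, h1, h2, h3, h4, rfl⟩
  refine Set.mem_iUnion₂.2 ⟨l, Finset.mem_range.2 (by omega), ?_⟩
  exact Set.mem_iUnion₂.2 ⟨n, Finset.mem_range.2 (by omega), D, h4, rfl⟩

theorem sm_fin {Q : ℕ → Set (Fin c → ℝ)} (hfin : ∀ l, (Q l).Finite) (r : ℝ)
    (a b : ℕ) : (SM Q r a b).Finite := by
  refine Set.Finite.union ?_ ?_
  · have h1 : (⋃ l ∈ Finset.range b, (fun D => (l, D)) '' Q l).Finite :=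
      Set.Finite.biUnion (Finset.finite_toSet _) fun l _ => (hfin l).image _
    refine h1.subset ?_
    rintro ⟨l, D⟩ ⟨_, h2, h3⟩
    exact Set.mem_iUnion₂.2 ⟨l, Finset.mem_range.2 h2, D, h3, rfl⟩
  · refine ((ax_fin r).image fun D => ((0 : ℕ), D)).subset ?_
    rintro ⟨l, D⟩ ⟨h1, h2⟩
    simp only at h1 h2
    exact ⟨D, h2, by rw [h1]⟩

theorem ex_isF {S : Set (Fin c → ℝ)} (hS : S.Finite) {r : ℝ} (hr : r ≠ 0)
    (hax : ∀ i, (Pi.single i r : Fin c → ℝ) ∈ S) : ∃ Z, IsF S Z := by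
  obtain ⟨F, h1, h2, h3⟩ := fek S hS (fun v => v) hr fun i => ⟨_, hax i, rfl⟩
  exact ⟨mat F, h2, h1, h3⟩

theorem ex_isK {q : ℝ} {Q : ℕ → Set (Fin c → ℝ)} (hfin : ∀ l, (Q l).Finite) {r : ℝ}
    (hr : r ≠ 0) (a b : ℕ) : ∃ F, IsK q Q r a b F := by
  obtain ⟨F, h1, h2, h3⟩ := fek (SM Q r a b) (sm_fin hfin r a b) (fv q) hr fun i =>
    ⟨((0 : ℕ), (Pi.single i r : Fin c → ℝ)), Or.inr ⟨rfl, i, rfl⟩, by
      simp [fv]⟩
  exact ⟨F, h1, h2, h3⟩

/-- The coefficients of a member. -/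
theorem isK_sum {q : ℝ} {Q : ℕ → Set (Fin c → ℝ)} {r : ℝ} {a b : ℕ}
    {F : Fin c → ℕ × (Fin c → ℝ)} (hF : IsK q Q r a b F) {x : ℕ × (Fin c → ℝ)}
    (hx : x ∈ SM Q r a b) :
    ∃ y : Fin c → ℝ, (∀ k, |y k| ≤ 1) ∧ fv q x = ∑ k, y k • fv q (F k) :=
  ⟨_, hF.2.2 x hx, eq_sum hF.2.1 (fv q x)⟩

/-- The new box after adding finitely many vectors. -/
theorem step {ι : Type} {Ph : Matrix (Fin c) (Fin c) ℝ → ℝ} {C : ℝ → ℝ}
    (hC0 : ∀ a, 0 ≤ C a) (hCm : Monotone C)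
    (P1 : ∀ (A V : Matrix (Fin c) (Fin c) ℝ) (a : ℝ), A.det ≠ 0 → V.det ≠ 0 → 1 ≤ a →
      (∀ b, In a V fun i => A i b) → Ph A ≤ Ph V + C a)
    {H a : ℝ} (hH : 0 ≤ H) (ha : 1 ≤ a) {V Z : Matrix (Fin c) (Fin c) ℝ} (hV : V.det ≠ 0)
    (hZ : Z.det ≠ 0) (v : ι → Fin c → ℝ) (pr : ι → ℝ) (B : ι → Set (Fin c → ℝ))
    (s : Finset ι)
    (h : ∀ j ∈ s, 0 ≤ pr j ∧ (In a V (v j) ∨ (In (a * H) V (v j) ∧ (∀ u ∈ B j, In a V u) ∧
      Sig Ph C (B j) H (v j) (pr j))))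
    (hcol : ∀ b, In a V (fun i => Z i b) ∨ ∃ x : ι → ℝ, (∀ k ∈ s, |x k| ≤ 1) ∧
      (fun i => Z i b) = ∑ k ∈ s, x k • v k) :
    Ph Z ≤ Ph V + ∑ j ∈ s, pr j + (s.card + 1) * C ((s.card + 1) * (2 ^ s.card * a)) := by
  obtain ⟨V1, hV1, i1, i2, i3⟩ := add_fin hC0 hCm hH ha hV v pr B s h
  have h2 : (1 : ℝ) ≤ 2 ^ s.card := one_le_pow₀ (by norm_num)
  have h3 : (1 : ℝ) ≤ 2 ^ s.card * a := by nlinarith
  have h4 : (0 : ℝ) ≤ s.card := Nat.cast_nonneg _
  have h5 : 2 ^ s.card * a ≤ ((s.card : ℝ) + 1) * (2 ^ s.card * a) := by nlinarith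
  have h6 := P1 Z V1 (((s.card : ℝ) + 1) * (2 ^ s.card * a)) hZ hV1 (by linarith) (by
    intro b
    rcases hcol b with h7 | ⟨x, hx, h7⟩
    · exact (i2 a (by linarith) _ h7).mono h5
    · rw [h7]
      refine (In.comb s x (by positivity) i1 hx).mono ?_
      rw [one_mul]
      nlinarith)
  have h8 : C (2 ^ s.card * a) ≤ C (((s.card : ℝ) + 1) * (2 ^ s.card * a)) := hCm h5
  have h9 : (s.card : ℝ) * C (2 ^ s.card * a) ≤
      s.card * C (((s.card : ℝ) + 1) * (2 ^ s.card * a)) := mul_le_mul_of_nonneg_left h8 h4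
  linarith

/-- The constant of a step. -/
noncomputable def K0 (c : ℕ) (C : ℝ → ℝ) : ℝ :=
  (2 * c + 1) * C ((2 * c + 1) * (2 ^ (2 * c) * (c + 1)))

/-- One step of the path. -/
theorem row_step {Ph : Matrix (Fin c) (Fin c) ℝ → ℝ} {C : ℝ → ℝ}
    (hC0 : ∀ a, 0 ≤ C a) (hCm : Monotone C)
    (P1 : ∀ (A V : Matrix (Fin c) (Fin c) ℝ) (a : ℝ), A.det ≠ 0 → V.det ≠ 0 → 1 ≤ a →
      (∀ b, In a V fun i => A i b) → Ph A ≤ Ph V + C a)
    {q : ℝ} (hq0 : 0 < q) (hq1 : q ≤ 1) {mu : ℕ} (hmu : 1 ≤ mu)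
    {Q : ℕ → Set (Fin c → ℝ)} {r : ℝ} {s0 N : ℕ} (hs0 : mu ≤ s0)
    {cst : ℕ → (Fin c → ℝ) → ℕ → ℝ} (hc0 : ∀ l D n, 0 ≤ cst l D n)
    (hloc : ∀ l n D, D ∈ Q l → s0 ≤ l → l < N → s0 ≤ n + mu → n + mu < N →
      Sig Ph C ({u | ∃ E ∈ Q (n + mu), u = q ^ l • E} ∪ Ax r) q⁻¹ (q ^ n • D) (cst l D n))
    {i j m : ℕ} (hi : s0 ≤ i) (hmj : m ≤ j + 1) (hjN : j < N)
    {V : Matrix (Fin c) (Fin c) ℝ} (hV : V.det ≠ 0)
    (hq : ∀ u ∈ Stg q mu Q i j, In (c + 1) V (q • u)) (hax : ∀ u ∈ Ax r, In (c + 1) V u)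
    {Z : Matrix (Fin c) (Fin c) ℝ} (hZ : IsF (Stg q mu Q i j ∪ Ax r) Z)
    {F1 F2 : Fin c → ℕ × (Fin c → ℝ)} (hF1 : IsK q Q r i m F1)
    (hF2 : IsK q Q r m (j + 1) F2) (him : i ≤ m) :
    Ph Z ≤ Ph V + (∑ k, pc Q cst s0 N (F1 k) (i + j - mu - (F1 k).1) +
      ∑ k, pc Q cst s0 N (F2 k) (i + j - mu - (F2 k).1)) + K0 c C := by
  classical
  have hqn : q ≠ 0 := hq0.ne'
  set X : Fin c ⊕ Fin c → ℕ × (Fin c → ℝ) := Sum.elim F1 F2 with hX
  have hXm : ∀ k, (i ≤ (X k).1 ∧ (X k).1 ≤ j ∧ (X k).2 ∈ Q (X k).1) ∨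
      ((X k).1 = 0 ∧ (X k).2 ∈ Ax r) := by
    intro k
    rcases k with k | k
    · rcases hF1.1 k with h | h
      · obtain ⟨h1, h2, h3⟩ := h
        exact Or.inl ⟨h1, by simp only [hX, Sum.elim_inl]; omega, h3⟩
      · exact Or.inr h
    · rcases hF2.1 k with h | h
      · obtain ⟨h1, h2, h3⟩ := h
        exact Or.inl ⟨by simp only [hX, Sum.elim_inr]; omega,
          by simp only [hX, Sum.elim_inr]; omega, h3⟩
      · exact Or.inr h
  have hst := step hC0 hCm P1 (H := q⁻¹) (a := (c : ℝ) + 1) (inv_nonneg.2 hq0.le)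
    (by have := Nat.cast_nonneg (α := ℝ) c; linarith) hV hZ.1
    (fun k => q ^ (i + j - mu) • fv q (X k))
    (fun k => pc Q cst s0 N (X k) (i + j - mu - (X k).1))
    (fun k => {u | ∃ E ∈ Q (i + j - mu - (X k).1 + mu), u = q ^ (X k).1 • E} ∪ Ax r)
    (univ : Finset (Fin c ⊕ Fin c)) ?_ ?_
  · rw [Fintype.sum_sum_type] at hst
    simp only [hX, Sum.elim_inl, Sum.elim_inr] at hst
    refine hst.trans (le_of_eq ?_)
    rw [Finset.card_univ, Fintype.card_sum, Fintype.card_fin, K0]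
    push_cast
    rw [show c + c = 2 * c from by ring, show (c : ℝ) + c + 1 = 2 * c + 1 from by ring]
  · -- the items
    intro k _
    have hpc : ∀ n, 0 ≤ pc Q cst s0 N (X k) n := by
      intro n
      unfold pc
      split_ifs
      · exact hc0 _ _ _
      · exact le_rfl
    refine ⟨hpc _, ?_⟩
    rcases hXm k with ⟨h1, h2, h3⟩ | ⟨h1, h2⟩
    · right
      set l := (X k).1 with hl
      set D := (X k).2 with hD
      have hn : i + j - mu - l + l + mu = i + j := by omega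
      set n := i + j - mu - l with hn'
      have hv : q ^ (i + j - mu) • fv q (X k) = q ^ n • D := by
        rw [fv, smul_smul, ← hl, ← hD, show i + j - mu = n + l from by omega, pow_add,
          mul_assoc, mul_inv_cancel₀ (pow_ne_zero _ hqn), mul_one]
      have hmem : q ^ n • D ∈ Stg q mu Q i j := ⟨l, n, D, h1, h2, hn, h3, rfl⟩
      rw [hv]
      refine ⟨?_, ?_, ?_⟩
      · have h4 := (hq _ hmem).smul q⁻¹
        rw [smul_smul, inv_mul_cancel₀ hqn, one_smul, abs_of_pos (inv_pos.2 hq0)] at h4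
        rwa [mul_comm] at h4
      · rintro u (⟨E, hE, rfl⟩ | hu)
        · -- pollution
          have h5 : q ^ (l - mu) • E ∈ Stg q mu Q i j :=
            ⟨n + mu, l - mu, E, by omega, by omega, by omega, hE, rfl⟩
          have h6 := (hq _ h5).smul (q ^ (mu - 1))
          rw [smul_smul, smul_smul, mul_assoc, ← pow_succ', ← pow_add,
            show mu - 1 + (l - mu + 1) = l from by omega] at h6
          refine h6.mono ?_
          rw [abs_of_pos (pow_pos hq0 _)]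
          exact mul_le_of_le_one_left (by positivity) (pow_le_one₀ hq0.le hq1)
        · exact hax u hu
      · have h7 : pc Q cst s0 N (X k) n = cst l D n := by
          unfold pc
          rw [if_pos]
          exact ⟨by omega, h3, by omega⟩
        rw [h7]
        exact hloc l n D h3 (by omega) (by omega) (by omega) (by omega)
    · left
      have h4 := (hax _ h2).smul (q ^ (i + j - mu))
      have h5 : fv q (X k) = (X k).2 := by
        rw [fv, h1]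
        simp
      rw [h5]
      refine h4.mono ?_
      rw [abs_of_pos (pow_pos hq0 _)]
      exact mul_le_of_le_one_left (by positivity) (pow_le_one₀ hq0.le hq1)
  · -- the columns
    intro b
    rcases hZ.2.1 b with ⟨l, n, D, h1, h2, h3, h4, h5⟩ | h
    · right
      have hv : q ^ n • D = q ^ (i + j - mu) • fv q (l, D) := by
        rw [fv, smul_smul, show i + j - mu = n + l from by omega, pow_add,
          mul_assoc, mul_inv_cancel₀ (pow_ne_zero _ hqn), mul_one]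
      rw [h5, hv]
      by_cases hlm : l < m
      · obtain ⟨y, hy1, hy2⟩ := isK_sum hF1 (x := (l, D)) (Or.inl ⟨h1, hlm, h4⟩)
        refine ⟨Sum.elim y 0, ?_, ?_⟩
        · rintro (k | k) _
          · exact hy1 k
          · simp
        · rw [hy2, Fintype.sum_sum_type]
          simp only [hX, Sum.elim_inl, Sum.elim_inr, Pi.zero_apply, zero_smul,
            Finset.sum_const_zero, add_zero]
          rw [Finset.smul_sum]
          exact Finset.sum_congr rfl fun k _ => smul_comm _ _ _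
      · obtain ⟨y, hy1, hy2⟩ := isK_sum hF2 (x := (l, D))
          (Or.inl ⟨by simp only; omega, by simp only; omega, h4⟩)
        refine ⟨Sum.elim 0 y, ?_, ?_⟩
        · rintro (k | k) _
          · simp
          · exact hy1 k
        · rw [hy2, Fintype.sum_sum_type]
          simp only [hX, Sum.elim_inl, Sum.elim_inr, Pi.zero_apply, zero_smul,
            Finset.sum_const_zero, zero_add]
          rw [Finset.smul_sum]
          exact Finset.sum_congr rfl fun k _ => smul_comm _ _ _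
    · left
      exact hax _ h

end Pool.ROW74
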